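import Mathlib
import Pool.Agent.R503.SIC.Base
import Pool.Agent.N655.WH.Core

set_option autoImplicit false

/-! # Zeros and arguments of the entries of Weyl–Heisenberg SIC fiducials -/

namespace Pool.Agent.N392.WH

open Finset Complex Pool.Agent.R503.SIC
open scoped ComplexConjugate

variable {d : ℕ} [NeZero d]

/-- `conj ψ (j + a) ψ j` -/
noncomputable def FF (ψ : ZMod d → ℂ) (a j : ZMod d) : ℂ := conj (ψ (j + a)) * ψ j

theorem ov_FF (ψ : ZMod d → ℂ) (a b : ZMod d) : ov ψ a b = ∑ j, FF ψ a j * e (b * j) := by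
  unfold ov FF
  exact Finset.sum_congr rfl fun j _ => by ring

theorem row_sum {ψ : ZMod d → ℂ} (h : Fid ψ) {a : ZMod d} (ha : a ≠ 0) :
    ∑ j, ‖FF ψ a j‖ ^ 2 = 1 / ((d : ℝ) + 1) := by
  have h1 := Pool.Agent.N655.WH.parseval (FF ψ a)
  have h2 : ∑ m : ZMod d, ‖∑ i, FF ψ a i * e (m * i)‖ ^ 2 = d * (1 / ((d : ℝ) + 1)) := by
    have h3 : ∀ m : ZMod d, ‖∑ i, FF ψ a i * e (m * i)‖ ^ 2 = 1 / ((d : ℝ) + 1) := fun m => by
      rw [← ov_FF]
      exact h.2 a m fun hc => ha (Prod.ext_iff.1 hc).1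
    rw [Finset.sum_congr rfl fun m _ => h3 m, Finset.sum_const, Finset.card_univ, ZMod.card,
      nsmul_eq_mul]
  rw [h2] at h1
  have hd : (d : ℝ) ≠ 0 := by exact_mod_cast NeZero.ne d
  exact (mul_left_cancel₀ hd h1).symm

theorem fourth {ψ : ZMod d → ℂ} (h : Fid ψ) : ∑ j, ‖ψ j‖ ^ 4 = 2 / ((d : ℝ) + 1) := by
  have h1 := Pool.Agent.N655.WH.parseval (FF ψ 0)
  have hd : (d : ℝ) ≠ 0 := by exact_mod_cast NeZero.ne d
  have hd1 : (d : ℝ) + 1 ≠ 0 := by positivity
  have h2 : ∑ m : ZMod d, ‖∑ i, FF ψ 0 i * e (m * i)‖ ^ 2 = d * (2 / ((d : ℝ) + 1)) := by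
    rw [← Finset.add_sum_erase _ _ (Finset.mem_univ (0 : ZMod d))]
    have h3 : ∀ m ∈ (Finset.univ : Finset (ZMod d)).erase 0,
        ‖∑ i, FF ψ 0 i * e (m * i)‖ ^ 2 = 1 / ((d : ℝ) + 1) := fun m hm => by
      rw [← ov_FF]
      exact h.2 0 m fun hc => (Finset.ne_of_mem_erase hm) (Prod.ext_iff.1 hc).2
    rw [Finset.sum_congr rfl h3, Finset.sum_const, Finset.card_erase_of_mem (Finset.mem_univ _),
      Finset.card_univ, ZMod.card, nsmul_eq_mul, ← ov_FF, ov_zero h.1, norm_one, Nat.cast_sub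
        (Nat.one_le_iff_ne_zero.2 (NeZero.ne d))]
    field_simp
    push_cast
    ring
  rw [h2] at h1
  rw [mul_left_cancel₀ hd h1]
  refine Finset.sum_congr rfl fun j _ => ?_
  unfold FF
  rw [add_zero, norm_mul, norm_conj']
  ring

/-- the four term relations -/
theorem four_term {ψ : ZMod d → ℂ} (h : Fid ψ) {a k : ZMod d} (ha : a ≠ 0) (hk : k ≠ 0) :
    ∑ j, FF ψ a j * conj (FF ψ a (j + k)) = 0 := by
  have h1 : ∑ m : ZMod d, ((‖∑ i, FF ψ a i * e (m * i)‖ ^ 2 : ℝ) : ℂ) * e (m * k) =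
      d * ∑ j, FF ψ a j * conj (FF ψ a (j + k)) := by
    calc ∑ m : ZMod d, ((‖∑ i, FF ψ a i * e (m * i)‖ ^ 2 : ℝ) : ℂ) * e (m * k)
        = ∑ m : ZMod d, ∑ i, ∑ j, FF ψ a i * conj (FF ψ a j) * e (m * (i - j + k)) := by
          refine sum_congr rfl fun m _ => ?_
          rw [← conj_mul_self', mul_comm (conj _), map_sum, sum_mul_sum, sum_mul]
          refine sum_congr rfl fun i _ => ?_
          rw [sum_mul]
          refine sum_congr rfl fun j _ => ?_
          have h2 : e (m * (i - j + k)) = e (m * i) * e (-(m * j)) * e (m * k) := by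
            rw [← e_add, ← e_add]; congr 1; ring
          rw [map_mul, conj_e, h2]; ring
      _ = ∑ i, ∑ j, ∑ m : ZMod d, FF ψ a i * conj (FF ψ a j) * e (m * (i - j + k)) := by
          rw [sum_comm]
          refine sum_congr rfl fun i _ => ?_
          rw [sum_comm]
      _ = ∑ i, ∑ j, FF ψ a i * conj (FF ψ a j) * (if i - j + k = 0 then (d : ℂ) else 0) := by
          refine sum_congr rfl fun i _ => sum_congr rfl fun j _ => ?_
          rw [← mul_sum, sum_e]
      _ = ∑ i, (d : ℂ) * (FF ψ a i * conj (FF ψ a (i + k))) := by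
          refine sum_congr rfl fun i _ => ?_
          rw [sum_eq_single (i + k)]
          · have : i - (i + k) + k = 0 := by ring
            rw [if_pos this]; ring
          · intro j _ hj
            rw [if_neg (fun h => hj ?_), mul_zero]
            have : j = i + k := by linear_combination -h
            exact this
          · intro h; exact absurd (mem_univ _) h
      _ = d * ∑ j, FF ψ a j * conj (FF ψ a (j + k)) := by rw [← mul_sum]
  have h3 : ∑ m : ZMod d, ((‖∑ i, FF ψ a i * e (m * i)‖ ^ 2 : ℝ) : ℂ) * e (m * k) = 0 := by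
    have h4 : ∀ m : ZMod d, ((‖∑ i, FF ψ a i * e (m * i)‖ ^ 2 : ℝ) : ℂ) * e (m * k) =
        ((1 / ((d : ℝ) + 1) : ℝ) : ℂ) * e (m * k) := fun m => by
      rw [← ov_FF, h.2 a m fun hc => ha (Prod.ext_iff.1 hc).1]
    rw [Finset.sum_congr rfl fun m _ => h4 m, ← mul_sum, sum_e, if_neg hk, mul_zero]
  rw [h3] at h1
  have hd : (d : ℂ) ≠ 0 := by exact_mod_cast NeZero.ne d
  exact (mul_eq_zero.1 h1.symm).resolve_left hd

/-! ### cosets of a subgroup -/

theorem coset_bound {ψ : ZMod d → ℂ} (h : Fid ψ) (H : AddSubgroup (ZMod d)) :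
    d + 1 ≤ (Nat.card H + 1) * {c : ZMod d ⧸ H | ∃ j : ZMod d, ψ j ≠ 0 ∧ (j : ZMod d ⧸ H) = c}.ncard := by
  classical
  have : Fintype (ZMod d ⧸ H) := Fintype.ofFinite _
  have : Fintype H := Fintype.ofFinite _
  set T : Set (ZMod d ⧸ H) := {c | ∃ j : ZMod d, ψ j ≠ 0 ∧ (j : ZMod d ⧸ H) = c} with hT
  set P : ZMod d ⧸ H → ℝ := fun c => ∑ j : ZMod d, if (j : ZMod d ⧸ H) = c then ‖ψ j‖ ^ 2 else 0
    with hP
  have h1 : ∑ c, P c = 1 := by
    rw [hP, Finset.sum_comm]
    rw [← h.1]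
    refine Finset.sum_congr rfl fun j _ => ?_
    rw [Finset.sum_ite_eq, if_pos (Finset.mem_univ _)]
  have h2 : ∀ c, c ∉ T → P c = 0 := by
    intro c hc
    rw [hP]
    refine Finset.sum_eq_zero fun j _ => ?_
    split_ifs with hj
    · by_contra hne
      exact hc ⟨j, fun h0 => hne (by rw [h0, norm_zero]; norm_num), hj⟩
    · rfl
  have h3 : ∑ c, P c ^ 2 = ((Nat.card H : ℝ) + 1) / ((d : ℝ) + 1) := by
    have h4 : ∑ c, P c ^ 2 = ∑ i : ZMod d, ∑ j : ZMod d,
        if (j : ZMod d ⧸ H) = (i : ZMod d ⧸ H) then ‖ψ i‖ ^ 2 * ‖ψ j‖ ^ 2 else 0 := by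
      have h5 : ∀ c, P c ^ 2 = ∑ i : ZMod d, ∑ j : ZMod d,
          if (i : ZMod d ⧸ H) = c then (if (j : ZMod d ⧸ H) = c then ‖ψ i‖ ^ 2 * ‖ψ j‖ ^ 2 else 0)
            else 0 := by
        intro c
        rw [sq, hP, Finset.sum_mul_sum]
        refine Finset.sum_congr rfl fun i _ => Finset.sum_congr rfl fun j _ => ?_
        split_ifs <;> simp
      rw [Finset.sum_congr rfl fun c _ => h5 c, Finset.sum_comm]
      refine Finset.sum_congr rfl fun i _ => ?_
      rw [Finset.sum_comm]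
      refine Finset.sum_congr rfl fun j _ => ?_
      rw [Finset.sum_ite_eq, if_pos (Finset.mem_univ _)]
    have h6 : ∀ i : ZMod d, (∑ j : ZMod d,
        if (j : ZMod d ⧸ H) = (i : ZMod d ⧸ H) then ‖ψ i‖ ^ 2 * ‖ψ j‖ ^ 2 else 0) =
        ∑ a : H, ‖ψ i‖ ^ 2 * ‖ψ (i + a)‖ ^ 2 := by
      intro i
      rw [← Finset.sum_filter]
      refine (Finset.sum_bij (fun (a : H) _ => i + (a : ZMod d)) ?_ ?_ ?_ ?_).symm
      · intro a _
        rw [Finset.mem_filter]
        refine ⟨Finset.mem_univ _, ?_⟩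
        rw [eq_comm, QuotientAddGroup.eq]
        simp
      · intro a _ b _ hab
        exact Subtype.ext (add_left_cancel hab)
      · intro j hj
        rw [Finset.mem_filter, eq_comm, QuotientAddGroup.eq] at hj
        exact ⟨⟨-i + j, hj.2⟩, Finset.mem_univ _, by simp⟩
      · intro a _; rfl
    rw [h4, Finset.sum_congr rfl fun i _ => h6 i, Finset.sum_comm]
    have h7 : ∀ a : H, ∑ i, ‖ψ i‖ ^ 2 * ‖ψ (i + a)‖ ^ 2 =
        1 / ((d : ℝ) + 1) + if a = 0 then 1 / ((d : ℝ) + 1) else 0 := by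
      intro a
      split_ifs with ha
      · rw [ha, ← add_div]
        have : (1 : ℝ) + 1 = 2 := by norm_num
        rw [this, ← fourth h]
        refine Finset.sum_congr rfl fun j _ => ?_
        rw [AddSubgroup.coe_zero, add_zero]
        ring
      · rw [add_zero, ← row_sum h (a := (a : ZMod d)) (fun h0 => ha (Subtype.ext h0))]
        refine Finset.sum_congr rfl fun j _ => ?_
        unfold FF
        rw [norm_mul, norm_conj']
        ring
    rw [Finset.sum_congr rfl fun a _ => h7 a, Finset.sum_add_distrib, Finset.sum_const,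
      Finset.sum_ite_eq', if_pos (Finset.mem_univ _), Finset.card_univ, ← Nat.card_eq_fintype_card,
      nsmul_eq_mul]
    ring
  have h8 : (1 : ℝ) ≤ T.ncard * (((Nat.card H : ℝ) + 1) / ((d : ℝ) + 1)) := by
    have h9 : ∑ c, P c = ∑ c ∈ T.toFinset, P c := by
      refine (Finset.sum_subset (Finset.subset_univ _) fun c _ hc => h2 c ?_).symm
      rwa [Set.mem_toFinset] at hc
    have h10 := sq_sum_le_card_mul_sum_sq (s := T.toFinset) (f := P)
    rw [← h9, h1, one_pow, ← Set.ncard_eq_toFinset_card'] at h10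
    refine h10.trans (mul_le_mul_of_nonneg_left ?_ (Nat.cast_nonneg _))
    rw [← h3]
    exact Finset.sum_le_sum_of_subset_of_nonneg (Finset.subset_univ _) fun c _ _ => sq_nonneg _
  have hd1 : (0 : ℝ) < (d : ℝ) + 1 := by positivity
  rw [← mul_div_assoc, le_div_iff₀ hd1, one_mul] at h8
  have h11 : ((d + 1 : ℕ) : ℝ) ≤ (((Nat.card H + 1) * T.ncard : ℕ) : ℝ) := by
    push_cast
    linarith
  exact_mod_cast h11

end Pool.Agent.N392.WH
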