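import Mathlib
import Pool.Agent.N392.WH.Zeros

set_option autoImplicit false

/-! # Runs of zeros in a Weyl–Heisenberg SIC fiducial -/

namespace Pool.Agent.N392.WH

open Finset Complex Pool.Agent.R503.SIC
open scoped ComplexConjugate

theorem exists_pair (d m : ℕ) (f : ℕ → Prop) [DecidablePred f] (hd : 4 ≤ d)
    (h3 : 3 * m ≤ 2 * d + 1) (hcard : d + 1 ≤ 2 * ((range m).filter f).card) :
    ∃ a k, 1 ≤ a ∧ 1 ≤ k ∧ a + k + 1 = m ∧ f a ∧ f k ∧ 2 * a < d ∧ 2 * k < d := by
  by_contra hcon
  push Not at hcon
  -- the symmetric range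
  set lo := max 1 (m - 1 - (d - 1) / 2) with hlo
  set R := (range m).filter fun a => lo ≤ a ∧ lo ≤ m - 1 - a ∧ 1 ≤ a with hR
  have hm1 : ((range m).filter f).card ≤ m := (card_filter_le _ _).trans (by rw [card_range])
  have hRm : ∀ a ∈ R, m - 1 - a ∈ R := by
    intro a ha
    rw [hR, mem_filter, mem_range] at ha ⊢
    omega
  have hR1 : ∀ a ∈ R, ¬ (f a ∧ f (m - 1 - a)) := by
    intro a ha hf
    rw [hR, mem_filter, mem_range] at ha
    have := hcon a (m - 1 - a) (by omega) (by omega) (by omega) hf.1 hf.2 (by omega)
    omega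
  have hcardR : R = Icc lo (m - 1 - lo) := by
    ext a
    rw [hR, mem_filter, mem_range, mem_Icc]
    omega
  have hRc : R.card = m - 1 - lo + 1 - lo := by rw [hcardR, Nat.card_Icc]
  have h4 : 2 * (R.filter f).card ≤ R.card := by
    have h5 : (R.filter f).card ≤ (R.filter fun a => ¬ f a).card := by
      refine card_le_card_of_injOn (fun a => m - 1 - a) ?_ ?_
      · intro a ha
        rw [mem_coe, mem_filter] at ha
        simp only [coe_filter, Set.mem_setOf_eq]
        exact ⟨hRm a ha.1, fun h => hR1 a ha.1 ⟨ha.2, h⟩⟩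
      · intro a ha b hb hab
        rw [mem_coe, mem_filter, hR, mem_filter, mem_range] at ha hb
        simp only at hab
        omega
    have h6 := card_filter_add_card_filter_not (s := R) f
    omega
  have h7 : ((range m).filter f).card ≤ (m - R.card) + (R.filter f).card := by
    have h8 : (range m).filter f ⊆ ((range m) \ R) ∪ R.filter f := by
      intro a ha
      rw [mem_filter] at ha
      by_cases h : a ∈ R
      · exact Finset.mem_union.2 (Or.inr (Finset.mem_filter.2 ⟨h, ha.2⟩))
      · exact Finset.mem_union.2 (Or.inl (Finset.mem_sdiff.2 ⟨ha.1, h⟩))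
    have hRs : R ⊆ range m := filter_subset _ _
    calc ((range m).filter f).card ≤ (((range m) \ R) ∪ R.filter f).card := card_le_card h8
      _ ≤ ((range m) \ R).card + (R.filter f).card := card_union_le _ _
      _ = (m - R.card) + (R.filter f).card := by rw [card_sdiff_of_subset hRs, card_range]
  have h9 : R.card ≤ m := by
    have := card_le_card (filter_subset (fun a => lo ≤ a ∧ lo ≤ m - 1 - a ∧ 1 ≤ a) (range m))
    rwa [card_range] at this
  omega

variable {d : ℕ} [NeZero d]

theorem gap_aux (hd : 4 ≤ d) {φ : ZMod d → ℂ}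
    (h4 : ∀ a k : ZMod d, a ≠ 0 → k ≠ 0 →
      ∑ j, (conj (φ (j + a)) * φ j) * conj (conj (φ (j + k + a)) * φ (j + k)) = 0)
    (hS : d + 1 ≤ 2 * (univ.filter fun j => φ j ≠ 0).card) {g : ℕ}
    (hg : ∀ i < g, φ (i : ZMod d) = 0) : 3 * g + 2 ≤ d := by
  classical
  -- a longest run
  obtain ⟨j0, hj0⟩ : ∃ j, φ j ≠ 0 := by
    by_contra hcon
    push Not at hcon
    rw [filter_eq_empty_iff.2 (fun j _ => by simp [hcon j]), card_empty] at hS
    omega
  set Q : ℕ → Prop := fun n => ∃ c : ZMod d, ∀ i < n, φ (c + i) = 0 with hQ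
  have hQg : Q g := ⟨0, fun i hi => by rw [zero_add]; exact hg i hi⟩
  have hQd : ∀ n, Q n → n < d := by
    rintro n ⟨c, hc⟩
    by_contra hn
    push Not at hn
    refine hj0 ?_
    have h1 := hc (j0 - c).val ((ZMod.val_lt _).trans_le hn)
    rwa [ZMod.natCast_zmod_val, add_sub_cancel] at h1
  set G := Nat.findGreatest Q d with hG
  have hQG : Q G := Nat.findGreatest_spec (hQd g hQg).le hQg
  have hgG : g ≤ G := Nat.le_findGreatest (hQd g hQg).le hQg
  have hmax : ¬ Q (G + 1) := fun h => by
    have := Nat.le_findGreatest (hQd _ h).le h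
    omega
  have hGd : G < d := hQd G hQG
  obtain ⟨c, hc⟩ := hQG
  set x : ℕ → ℂ := fun i => φ (c + G + i) with hx
  have hx0 : x 0 ≠ 0 := by
    intro h
    refine hmax ⟨c, fun i hi => ?_⟩
    rcases Nat.lt_succ_iff_lt_or_eq.1 hi with h1 | h1
    · exact hc i h1
    · rw [h1]; rw [hx] at h; simpa using h
  set m := d - G with hm
  have hxm : x (m - 1) ≠ 0 := by
    intro h
    refine hmax ⟨c - 1, fun i hi => ?_⟩
    rcases Nat.eq_zero_or_pos i with h1 | h1
    · rw [h1]
      rw [hx] at h
      have h2 : c + (G : ZMod d) + ((m - 1 : ℕ) : ZMod d) = c - 1 := by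
        have h3 : ((G + (m - 1) + 1 : ℕ) : ZMod d) = 0 := by
          have : G + (m - 1) + 1 = d := by omega
          rw [this, ZMod.natCast_self]
        push_cast at h3
        linear_combination h3
      simp only [h2] at h
      simpa using h
    · have h2 := hc (i - 1) (by omega)
      have h3 : c - 1 + (i : ZMod d) = c + ((i - 1 : ℕ) : ZMod d) := by
        rw [Nat.cast_sub h1]
        push_cast
        ring
      rw [h3]; exact h2
  have hxz : ∀ i, m ≤ i → i < d → x i = 0 := by
    intro i h1 h2
    have h3 := hc (i - m) (by omega)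
    rw [hx]
    have h4 : c + (G : ZMod d) + (i : ZMod d) = c + ((i - m : ℕ) : ZMod d) := by
      have h5 : ((G + i : ℕ) : ZMod d) = ((i - m : ℕ) : ZMod d) := by
        have : G + i = (i - m) + d := by omega
        rw [this, Nat.cast_add, ZMod.natCast_self, add_zero]
      push_cast at h5
      rw [add_assoc, h5]
    simp only [h4]
    exact h3
  by_contra hcon
  have hcard : d + 1 ≤ 2 * ((range m).filter fun i => x i ≠ 0).card := by
    refine hS.trans (Nat.mul_le_mul_left 2 ?_)
    refine card_le_card_of_injOn (fun j => (j - c - G).val) ?_ ?_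
    · intro j hj
      simp only [coe_filter, mem_univ, true_and, Set.mem_setOf_eq] at hj
      simp only [coe_filter, Set.mem_setOf_eq, mem_range]
      have h1 : x (j - c - G).val = φ j := by
        rw [hx]
        simp only [ZMod.natCast_zmod_val]
        congr 1
        ring
      refine ⟨?_, by rw [h1]; exact hj⟩
      by_contra h2
      push Not at h2
      exact hj (by rw [← h1]; exact hxz _ h2 (ZMod.val_lt _))
    · intro i _ j _ hij
      have := ZMod.val_injective d hij
      linear_combination this
  obtain ⟨a, k, ha, hk, hak, hfa, hfk, h2a, h2k⟩ :=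
    exists_pair d m (fun i => x i ≠ 0) hd (by omega) hcard
  have hcast : ∀ n : ℕ, 1 ≤ n → n < d → (n : ZMod d) ≠ 0 := by
    intro n h1 h2 h3
    rw [ZMod.natCast_eq_zero_iff] at h3
    exact absurd (Nat.le_of_dvd h1 h3) (by omega)
  have hsum := h4 a k (hcast a ha (by omega)) (hcast k hk (by omega))
  -- reduction of residues
  have hred : ∀ n : ℕ, n < 2 * d → x n = x (if n < d then n else n - d) := by
    intro n hn
    split_ifs with h
    · rfl
    · rw [hx]
      simp only
      congr 2
      rw [Nat.cast_sub (by omega), ZMod.natCast_self, sub_zero]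
  have hzero : ∀ n : ℕ, n < 2 * d → (m ≤ n ∧ n < d ∨ d + m ≤ n) → x n = 0 := by
    intro n hn h
    rw [hred n hn]
    split_ifs with h1
    · exact hxz n (by omega) h1
    · exact hxz _ (by omega) (by omega)
  rw [Finset.sum_eq_single (c + G)] at hsum
  · have e1 : φ (c + G + a) = x a := rfl
    have e0 : φ (c + G) = x 0 := by rw [hx]; simp
    have e2 : φ (c + G + k + a) = x (m - 1) := by
      rw [hx]
      simp only
      congr 1
      have : m - 1 = k + a := by omega
      rw [this]
      push_cast
      ring
    have e3 : φ (c + G + k) = x k := rfl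
    rw [e1, e0, e2, e3] at hsum
    simp only [map_mul, Complex.conj_conj, mul_eq_zero, map_eq_zero] at hsum
    rcases hsum with (h | h) | (h | h)
    · exact hfa h
    · exact hx0 h
    · exact hxm h
    · exact hfk h
  · intro j _ hj
    set i := (j - c - G).val with hi
    have hid : i < d := ZMod.val_lt _
    have hji : j = c + G + (i : ZMod d) := by
      rw [hi, ZMod.natCast_zmod_val]; ring
    have hi0 : 1 ≤ i := by
      rw [Nat.one_le_iff_ne_zero]
      intro h
      apply hj
      rw [hji, h]
      simp
    have e1 : φ (j + a) = x (i + a) := by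
      rw [hx, hji]; simp only; congr 1; push_cast; ring
    have e0 : φ j = x i := by rw [hx, hji]
    have e2 : φ (j + k + a) = x (i + k + a) := by
      rw [hx, hji]; simp only; congr 1; push_cast; ring
    have e3 : φ (j + k) = x (i + k) := by
      rw [hx, hji]; simp only; congr 1; push_cast; ring
    rw [e1, e0, e2, e3]
    have key : x i = 0 ∨ x (i + a) = 0 ∨ x (i + k) = 0 ∨ x (i + k + a) = 0 := by
      by_contra hne
      push Not at hne
      obtain ⟨n0, n1, n2, n3⟩ := hne
      have q0 : i < m := by
        by_contra h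
        exact n0 (hzero i (by omega) (by omega))
      have q1 : i + a < m ∨ d ≤ i + a := by
        by_contra h
        exact n1 (hzero (i + a) (by omega) (by omega))
      have q2 : i + k < m ∨ d ≤ i + k := by
        by_contra h
        exact n2 (hzero (i + k) (by omega) (by omega))
      have q3 : i + k + a < m ∨ d ≤ i + k + a := by
        by_contra h
        exact n3 (hzero (i + k + a) (by omega) (by omega))
      omega
    rcases key with h | h | h | h <;> simp [h]
  · intro h; exact absurd (mem_univ _) h

end Pool.Agent.N392.WH
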