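import Mathlib
import Pool.Agent.R503.SIC.Base
import Pool.Agent.N392.Approx.Base

set_option autoImplicit false

/-! # Weyl–Heisenberg covariant symmetric measurements of small rank -/

namespace Pool.Agent.N392.WH

open Finset Complex Pool.Agent.R503.SIC Matrix
open scoped ComplexConjugate ComplexOrder

variable {d : ℕ} [NeZero d]

/-- `Tr (ρ X ^ a Z ^ b)` -/
noncomputable def tr (ρ : Matrix (ZMod d) (ZMod d) ℂ) (a b : ZMod d) : ℂ :=
  ∑ j, ρ j (j + a) * e (b * j)

/-- the matrix `x x^*` -/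
noncomputable def proj (x : ZMod d → ℂ) : Matrix (ZMod d) (ZMod d) ℂ := vecMulVec x (star x)

theorem tr_proj (x : ZMod d → ℂ) (a b : ZMod d) : tr (proj x) a b = ov x a b := by
  unfold tr ov proj
  refine Finset.sum_congr rfl fun j _ => ?_
  rw [vecMulVec_apply, Pi.star_apply, RCLike.star_def]
  ring

theorem tr_add (ρ σ : Matrix (ZMod d) (ZMod d) ℂ) (a b : ZMod d) :
    tr (ρ + σ) a b = tr ρ a b + tr σ a b := by
  unfold tr
  rw [← Finset.sum_add_distrib]
  refine Finset.sum_congr rfl fun j _ => ?_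
  rw [Matrix.add_apply]
  ring

theorem tr_smul (c : ℝ) (ρ : Matrix (ZMod d) (ZMod d) ℂ) (a b : ZMod d) :
    tr (c • ρ) a b = (c : ℂ) * tr ρ a b := by
  unfold tr
  rw [Finset.mul_sum]
  refine Finset.sum_congr rfl fun j _ => ?_
  rw [Matrix.smul_apply, Complex.real_smul]
  ring

theorem trace_eq (ρ : Matrix (ZMod d) (ZMod d) ℂ) : ρ.trace = tr ρ 0 0 := by
  unfold tr Matrix.trace
  refine Finset.sum_congr rfl fun j _ => ?_
  rw [zero_mul, e_zero, add_zero, mul_one, Matrix.diag_apply]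

theorem posSemidef_proj (x : ZMod d → ℂ) : (proj x).PosSemidef :=
  posSemidef_vecMulVec_self_star x

theorem rank_proj (x : ZMod d → ℂ) : (proj x).rank ≤ 1 := rank_vecMulVec_le x (star x)

theorem rank_smul_le (c : ℝ) (ρ : Matrix (ZMod d) (ZMod d) ℂ) : (c • ρ).rank ≤ ρ.rank := by
  by_cases hc : c = 0
  · rw [hc, zero_smul, Matrix.rank_zero]
    exact Nat.zero_le _
  · have h : c • ρ = ((c : ℂ) • (1 : Matrix (ZMod d) (ZMod d) ℂ)) * ρ := by
      ext i j
      simp [Matrix.smul_apply]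
    rw [h]
    exact Matrix.rank_mul_le_right _ _

theorem rank_add_le' (ρ σ : Matrix (ZMod d) (ZMod d) ℂ) : (ρ + σ).rank ≤ ρ.rank + σ.rank := by
  unfold Matrix.rank
  have h1 : LinearMap.range (ρ + σ).mulVecLin ≤
      LinearMap.range ρ.mulVecLin ⊔ LinearMap.range σ.mulVecLin := by
    rintro _ ⟨x, rfl⟩
    rw [Matrix.mulVecLin_apply, Matrix.add_mulVec]
    exact Submodule.add_mem_sup ⟨x, rfl⟩ ⟨x, rfl⟩
  exact (Submodule.finrank_mono h1).trans (Submodule.finrank_add_le_finrank_add_finrank _ _)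

/-- the standard basis vector `|0⟩` -/
def bas : ZMod d → ℂ := fun j => if j = 0 then 1 else 0

/-- the constant unit vector -/
noncomputable def con : ZMod d → ℂ := fun _ => ((1 / Real.sqrt d : ℝ) : ℂ)

theorem ov_bas (a b : ZMod d) : ov (bas : ZMod d → ℂ) a b = if a = 0 then 1 else 0 := by
  unfold ov bas
  rw [Finset.sum_eq_single 0]
  · by_cases h : a = 0
    · simp [h, e_zero]
    · simp [h]
  · intro j _ hj
    simp [hj]
  · intro h; exact absurd (Finset.mem_univ _) h

theorem cast_pos : (0 : ℝ) < d := by exact_mod_cast Nat.pos_of_ne_zero (NeZero.ne d)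

omit [NeZero d] in
theorem sqrt_mul : (((1 / Real.sqrt d : ℝ) : ℂ)) * (((1 / Real.sqrt d : ℝ) : ℂ)) = 1 / (d : ℂ) := by
  rw [← Complex.ofReal_mul, div_mul_div_comm, one_mul, Real.mul_self_sqrt (Nat.cast_nonneg d)]
  push_cast
  rfl

theorem ov_con (a b : ZMod d) : ov (con : ZMod d → ℂ) a b = if b = 0 then 1 else 0 := by
  unfold ov con
  have h1 : ∀ j : ZMod d, conj (((1 / Real.sqrt d : ℝ) : ℂ)) * (e (b * j) *
      ((1 / Real.sqrt d : ℝ) : ℂ)) = 1 / (d : ℂ) * e (j * b) := by
    intro j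
    rw [Complex.conj_ofReal, ← sqrt_mul, mul_comm b j]
    ring
  rw [Finset.sum_congr rfl fun j _ => h1 j, ← Finset.mul_sum, sum_e]
  have hd : (d : ℂ) ≠ 0 := by exact_mod_cast NeZero.ne d
  split_ifs with h
  · rw [one_div, inv_mul_cancel₀ hd]
  · rw [mul_zero]

/-- a sequence of phases `f`, normalised -/
noncomputable def seq (f : ZMod d → ℂ) : ZMod d → ℂ := fun j => ((1 / Real.sqrt d : ℝ) : ℂ) * f j

theorem ov_seq (f : ZMod d → ℂ) (a b : ZMod d) :
    ov (seq f) a b = 1 / (d : ℂ) * ∑ j, conj (f (j + a)) * (e (b * j) * f j) := by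
  unfold ov seq
  rw [Finset.mul_sum]
  refine Finset.sum_congr rfl fun j _ => ?_
  rw [map_mul, Complex.conj_ofReal, ← sqrt_mul]
  ring

/-! ### the cubic sequence in prime dimension -/

section Prime

variable {p : ℕ} [Fact p.Prime]

theorem std_ne_one : (ZMod.stdAddChar : AddChar (ZMod p) ℂ) ≠ 1 := by
  intro h
  have h1 : (ZMod.stdAddChar (1 : ZMod p) : ℂ) = ZMod.stdAddChar (0 : ZMod p) := by
    rw [h]; rfl
  exact one_ne_zero (ZMod.injective_stdAddChar h1)

/-- the cubic phases -/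
noncomputable def cub : ZMod p → ℂ := fun j => e (j ^ 3)

theorem ov_cub_zero (b : ZMod p) : ov (seq (cub : ZMod p → ℂ)) 0 b = if b = 0 then 1 else 0 := by
  rw [ov_seq]
  have h1 : ∀ j : ZMod p, conj ((cub : ZMod p → ℂ) (j + 0)) * (e (b * j) * cub j) = e (j * b) := by
    intro j
    unfold cub
    rw [add_zero, conj_e, mul_left_comm, ← e_add, neg_add_cancel, e_zero, mul_one, mul_comm]
  rw [Finset.sum_congr rfl fun j _ => h1 j, sum_e]
  have hd : (p : ℂ) ≠ 0 := by exact_mod_cast NeZero.ne p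
  split_ifs with h
  · rw [one_div, inv_mul_cancel₀ hd]
  · rw [mul_zero]

theorem ov_cub_ne (h5 : 5 ≤ p) {a : ZMod p} (ha : a ≠ 0) (b : ZMod p) :
    ‖ov (seq (cub : ZMod p → ℂ)) a b‖ = 1 / Real.sqrt p := by
  have h2 : (2 : ZMod p) ≠ 0 := by
    intro h
    have : ((2 : ℕ) : ZMod p) = 0 := by exact_mod_cast h
    rw [ZMod.natCast_eq_zero_iff] at this
    exact absurd (Nat.le_of_dvd (by norm_num) this) (by omega)
  have h3 : (3 : ZMod p) ≠ 0 := by
    intro h
    have : ((3 : ℕ) : ZMod p) = 0 := by exact_mod_cast h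
    rw [ZMod.natCast_eq_zero_iff] at this
    exact absurd (Nat.le_of_dvd (by norm_num) this) (by omega)
  rw [ov_seq]
  have h1 : ∀ j : ZMod p, conj ((cub : ZMod p → ℂ) (j + a)) * (e (b * j) * cub j) =
      ZMod.stdAddChar ((-3 * a) * j ^ 2 + (b - 3 * a ^ 2) * j + (-a ^ 3)) := by
    intro j
    unfold cub
    rw [conj_e, ← e_add, ← e_add]
    unfold e
    congr 1
    ring
  rw [Finset.sum_congr rfl fun j _ => h1 j, norm_mul,
    Pool.Agent.N392.Approx.gauss h2 std_ne_one (mul_ne_zero (neg_ne_zero.2 h3) ha), ZMod.card]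
  rw [norm_div, norm_one, Complex.norm_natCast]
  have hp : (0 : ℝ) < p := cast_pos
  have hs : Real.sqrt p ≠ 0 := (Real.sqrt_pos.2 hp).ne'
  rw [div_mul_eq_mul_div, one_mul, div_eq_div_iff hp.ne' hs, Real.mul_self_sqrt hp.le, one_mul]

/-- the rank two density matrix in prime dimension -/
noncomputable def rhoP : Matrix (ZMod p) (ZMod p) ℂ :=
  (Real.sqrt p / (Real.sqrt p + 1)) • proj (seq cub) + (1 / (Real.sqrt p + 1)) • proj bas

theorem prime_case (h5 : 5 ≤ p) : ∃ ρ : Matrix (ZMod p) (ZMod p) ℂ, ρ.PosSemidef ∧ ρ.trace = 1 ∧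
    ρ.rank ≤ 2 ∧ ∀ a b : ZMod p, (a, b) ≠ (0, 0) → ‖tr ρ a b‖ = 1 / (Real.sqrt p + 1) := by
  have hp : (0 : ℝ) < p := cast_pos
  have hs : 0 < Real.sqrt p := Real.sqrt_pos.2 hp
  refine ⟨rhoP, ?_, ?_, ?_, ?_⟩
  · exact ((posSemidef_proj _).smul (by positivity)).add ((posSemidef_proj _).smul (by positivity))
  · rw [trace_eq, rhoP, tr_add, tr_smul, tr_smul, tr_proj, tr_proj, ov_cub_zero, ov_bas, if_pos rfl,
      mul_one, mul_one, ← Complex.ofReal_add, ← add_div, div_self (by positivity),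
      Complex.ofReal_one]
  · refine (rank_add_le' _ _).trans ?_
    have := (rank_smul_le (Real.sqrt p / (Real.sqrt p + 1)) (proj (seq (cub : ZMod p → ℂ)))).trans
      (rank_proj _)
    have := (rank_smul_le (1 / (Real.sqrt p + 1)) (proj (bas : ZMod p → ℂ))).trans
      (rank_proj _)
    omega
  · intro a b hab
    rw [rhoP, tr_add, tr_smul, tr_smul, tr_proj, tr_proj, ov_bas]
    by_cases ha : a = 0
    · have hb : b ≠ 0 := fun hb => hab (by rw [ha, hb])
      rw [ha, ov_cub_zero, if_neg hb, if_pos rfl, mul_zero, zero_add, mul_one, Complex.norm_real,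
        Real.norm_eq_abs, abs_of_pos (by positivity)]
    · rw [if_neg ha, mul_zero, add_zero, norm_mul, ov_cub_ne h5 ha, Complex.norm_real,
        Real.norm_eq_abs, abs_of_pos (by positivity)]
      field_simp

end Prime

/-! ### the Welch sequence in dimension `q - 1` -/

section Welch

variable {F : Type} [Field F] [Fintype F] (E : Multiplicative (ZMod d) ≃* Fˣ)

/-- the multiplicative character belonging to `b` -/
noncomputable def chi (b : ZMod d) : MulChar F ℂ :=
  MulChar.ofUnitHom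
    { toFun := fun x => Units.mk0 (e (b * Multiplicative.toAdd (E.symm x))) (e_ne_zero _)
      map_one' := by
        ext
        simp [e_zero]
      map_mul' := fun x y => by
        ext
        simp only [map_mul, toAdd_mul, Units.val_mk0, Units.val_mul]
        rw [mul_add, e_add] }

theorem chi_apply (b : ZMod d) (j : ZMod d) :
    chi E b (E (Multiplicative.ofAdd j) : F) = e (b * j) := by
  unfold chi
  rw [MulChar.ofUnitHom_coe]
  simp

theorem chi_ne_one {b : ZMod d} (hb : b ≠ 0) : chi E b ≠ 1 := by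
  intro h
  have h1 := chi_apply E b 1
  rw [h, MulChar.one_apply (Units.isUnit _), mul_one] at h1
  have h2 : e b = e (0 : ZMod d) := by rw [← h1, e_zero]
  exact hb (e_inj h2)

theorem norm_gaussSum {χ : MulChar F ℂ} (hχ : χ ≠ 1) {ψ : AddChar F ℂ} (hψ : ψ.IsPrimitive) :
    ‖gaussSum χ ψ‖ = Real.sqrt (Fintype.card F) := by
  have h1 := gaussSum_mul_gaussSum_eq_card hχ hψ
  rw [← star_gaussSum_eq, RCLike.star_def, Complex.mul_conj, Complex.normSq_eq_norm_sq] at h1
  have h3 : ‖gaussSum χ ψ‖ ^ 2 = (Fintype.card F : ℝ) := by exact_mod_cast h1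
  rw [← h3, Real.sqrt_sq (norm_nonneg _)]

/-- a sum over the units -/
theorem sum_units (g : F → ℂ) (h0 : g 0 = 0) :
    ∑ j : ZMod d, g (E (Multiplicative.ofAdd j)) = ∑ x : F, g x := by
  classical
  have h1 : ∑ x : F, g x = ∑ u : Fˣ, g u := by
    rw [← Finset.sum_subset (Finset.subset_univ (Finset.univ.filter fun x : F => x ≠ 0))]
    · refine (Finset.sum_bij (fun (u : Fˣ) _ => (u : F)) ?_ ?_ ?_ ?_).symm
      · intro u _; simp
      · intro u _ v _ h; exact Units.ext h
      · intro x hx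
        exact ⟨Units.mk0 x (by simpa using hx), Finset.mem_univ _, rfl⟩
      · intro u _; rfl
    · intro x _ hx
      have : x = 0 := by simpa using hx
      rw [this, h0]
  rw [h1]
  exact Fintype.sum_equiv (Multiplicative.ofAdd.trans E.toEquiv) _ _ fun j => rfl

/-- the Welch sequence -/
noncomputable def wel (ψ : AddChar F ℂ) : ZMod d → ℂ := fun j => ψ (E (Multiplicative.ofAdd j) : F)

theorem conj_psi [CharZero ℂ] (ψ : AddChar F ℂ) (x : F) : conj (ψ x) = ψ (-x) := by
  rw [AddChar.map_neg_eq_conj]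

theorem E_add (i j : ZMod d) : (E (Multiplicative.ofAdd (i + j)) : F) =
    (E (Multiplicative.ofAdd i) : F) * (E (Multiplicative.ofAdd j) : F) := by
  rw [ofAdd_add, map_mul, Units.val_mul]

theorem E_ne_one {a : ZMod d} (ha : a ≠ 0) : (E (Multiplicative.ofAdd a) : F) ≠ 1 := by
  intro h
  have h1 : E (Multiplicative.ofAdd a) = 1 := Units.ext h
  have h2 : Multiplicative.ofAdd a = 1 := by
    rw [← E.map_one] at h1
    exact E.injective h1
  exact ha (by simpa using h2)

theorem wel_prod (ψ : AddChar F ℂ) (a b j : ZMod d) :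
    conj (wel E ψ (j + a)) * (e (b * j) * wel E ψ j) =
      chi E b (E (Multiplicative.ofAdd j) : F) *
        ψ ((1 - (E (Multiplicative.ofAdd a) : F)) * (E (Multiplicative.ofAdd j) : F)) := by
  unfold wel
  rw [conj_psi, chi_apply, mul_left_comm, ← AddChar.map_add_eq_mul, E_add]
  congr 2
  ring

include E in
theorem card_eq : (Fintype.card F : ℝ) = d + 1 := by
  classical
  have h1 : Fintype.card (Multiplicative (ZMod d)) = Fintype.card Fˣ := Fintype.card_congr E.toEquiv
  rw [Fintype.card_units] at h1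
  have h2 : Fintype.card (Multiplicative (ZMod d)) = d := by
    rw [Fintype.card_multiplicative, ZMod.card]
  rw [h2] at h1
  have h3 : 0 < Fintype.card F := Fintype.card_pos
  have h4 : Fintype.card F = d + 1 := by omega
  rw [h4]
  push_cast
  rfl

theorem ov_wel_zero (ψ : AddChar F ℂ) (b : ZMod d) :
    ov (seq (wel E ψ)) 0 b = if b = 0 then 1 else 0 := by
  rw [ov_seq]
  have h1 : ∀ j : ZMod d, conj (wel E ψ (j + 0)) * (e (b * j) * wel E ψ j) = e (j * b) := by
    intro j
    unfold wel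
    rw [add_zero, conj_psi, mul_left_comm, ← AddChar.map_add_eq_mul, neg_add_cancel,
      AddChar.map_zero_eq_one, mul_one, mul_comm]
  rw [Finset.sum_congr rfl fun j _ => h1 j, sum_e]
  have hd : (d : ℂ) ≠ 0 := by exact_mod_cast NeZero.ne d
  split_ifs with h
  · rw [one_div, inv_mul_cancel₀ hd]
  · rw [mul_zero]

theorem ov_wel_shift {ψ : AddChar F ℂ} (hψ : ψ.IsPrimitive) {a : ZMod d} (ha : a ≠ 0) :
    ov (seq (wel E ψ)) a 0 = - (1 / (d : ℂ)) := by
  classical
  rw [ov_seq]
  have hc : 1 - (E (Multiplicative.ofAdd a) : F) ≠ 0 := sub_ne_zero.2 (E_ne_one E ha).symm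
  have h1 : ∀ j : ZMod d, conj (wel E ψ (j + a)) * (e (0 * j) * wel E ψ j) =
      (fun x : F => if x = 0 then (0 : ℂ) else ψ ((1 - (E (Multiplicative.ofAdd a) : F)) * x))
        (E (Multiplicative.ofAdd j)) := by
    intro j
    rw [wel_prod, chi_apply, zero_mul, e_zero, one_mul]
    simp only
    rw [if_neg (Units.ne_zero _)]
  have h5 := sum_units E (fun x : F => if x = 0 then (0 : ℂ) else
    ψ ((1 - (E (Multiplicative.ofAdd a) : F)) * x)) (by simp)
  rw [Finset.sum_congr rfl fun j _ => h1 j, h5]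
  have h2 : ∀ x : F, (if x = 0 then (0 : ℂ) else ψ ((1 - (E (Multiplicative.ofAdd a) : F)) * x)) =
      ψ (x * (1 - (E (Multiplicative.ofAdd a) : F))) - if x = 0 then 1 else 0 := by
    intro x
    by_cases hx : x = 0
    · simp [hx]
    · rw [if_neg hx, if_neg hx, sub_zero, mul_comm]
  rw [Finset.sum_congr rfl fun x _ => h2 x, Finset.sum_sub_distrib,
    AddChar.sum_mulShift _ hψ, if_neg hc]
  simp

theorem ov_wel_ne {ψ : AddChar F ℂ} (hψ : ψ.IsPrimitive) {a b : ZMod d} (ha : a ≠ 0) (hb : b ≠ 0) :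
    ‖ov (seq (wel E ψ)) a b‖ = Real.sqrt (d + 1) / d := by
  rw [ov_seq]
  have hc : 1 - (E (Multiplicative.ofAdd a) : F) ≠ 0 := sub_ne_zero.2 (E_ne_one E ha).symm
  have h1 : ∀ j : ZMod d, conj (wel E ψ (j + a)) * (e (b * j) * wel E ψ j) =
      (fun x : F => chi E b x * ψ ((1 - (E (Multiplicative.ofAdd a) : F)) * x))
        (E (Multiplicative.ofAdd j)) := by
    intro j
    rw [wel_prod]
  have h5 := sum_units E (fun x : F => chi E b x * ψ ((1 - (E (Multiplicative.ofAdd a) : F)) * x))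
    (by simp [MulChar.map_zero])
  rw [Finset.sum_congr rfl fun j _ => h1 j, h5]
  have h2 := gaussSum_mulShift_eq (chi E b) ψ (Units.mk0 _ hc)
  unfold gaussSum at h2
  simp only [AddChar.mulShift_apply, Units.val_mk0] at h2
  rw [h2]
  have h3 : ‖∑ x, chi E b x * ψ x‖ = Real.sqrt (Fintype.card F) :=
    norm_gaussSum (chi_ne_one E hb) hψ
  have h4 : ‖(chi E b)⁻¹ (1 - (E (Multiplicative.ofAdd a) : F))‖ = 1 := by
    rw [MulChar.inv_apply']
    obtain ⟨j, hj⟩ : ∃ j : ZMod d, (E (Multiplicative.ofAdd j) : F) =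
        (1 - (E (Multiplicative.ofAdd a) : F))⁻¹ := by
      refine ⟨Multiplicative.toAdd (E.symm (Units.mk0 _ (inv_ne_zero hc))), ?_⟩
      simp
    rw [← hj, chi_apply, norm_e]
  rw [norm_mul, norm_mul, h4, h3, card_eq E, norm_div, norm_one, Complex.norm_natCast]
  ring

/-- the rank three density matrix in dimension `q - 1` -/
noncomputable def rhoW (ψ : AddChar F ℂ) : Matrix (ZMod d) (ZMod d) ℂ :=
  (d / (d + 1 + 2 * Real.sqrt (d + 1)) : ℝ) • proj (seq (wel E ψ)) +
    (Real.sqrt (d + 1) / (d + 1 + 2 * Real.sqrt (d + 1))) • proj bas +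
    ((Real.sqrt (d + 1) + 1) / (d + 1 + 2 * Real.sqrt (d + 1))) • proj con

include E in
theorem welch_case {ψ : AddChar F ℂ} (hψ : ψ.IsPrimitive) :
    ∃ ρ : Matrix (ZMod d) (ZMod d) ℂ, ρ.PosSemidef ∧ ρ.trace = 1 ∧
    ρ.rank ≤ 3 ∧ ∀ a b : ZMod d, (a, b) ≠ (0, 0) → ‖tr ρ a b‖ = 1 / (Real.sqrt (d + 1) + 2) := by
  have hd : (0 : ℝ) < d := cast_pos
  have hs : 0 < Real.sqrt (d + 1) := Real.sqrt_pos.2 (by positivity)
  have hss : Real.sqrt (d + 1) * Real.sqrt (d + 1) = d + 1 := Real.mul_self_sqrt (by positivity)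
  have ht : Real.sqrt (d + 1) / (d + 1 + 2 * Real.sqrt (d + 1)) = 1 / (Real.sqrt (d + 1) + 2) := by
    rw [div_eq_div_iff (by positivity) (by positivity)]
    linear_combination hss
  refine ⟨rhoW E ψ, ?_, ?_, ?_, ?_⟩
  · exact (((posSemidef_proj _).smul (by positivity)).add
      ((posSemidef_proj _).smul (by positivity))).add ((posSemidef_proj _).smul (by positivity))
  · rw [trace_eq, rhoW, tr_add, tr_add, tr_smul, tr_smul, tr_smul, tr_proj, tr_proj, tr_proj,
      ov_wel_zero, ov_bas, ov_con, if_pos rfl, mul_one, mul_one, mul_one, ← Complex.ofReal_add,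
      ← Complex.ofReal_add, ← add_div, ← add_div, ← Complex.ofReal_one]
    congr 1
    rw [div_eq_one_iff_eq (by positivity)]
    ring
  · refine (rank_add_le' _ _).trans ?_
    have h0 := rank_add_le' ((d / (d + 1 + 2 * Real.sqrt (d + 1)) : ℝ) • proj (seq (wel E ψ)))
      ((Real.sqrt (d + 1) / (d + 1 + 2 * Real.sqrt (d + 1))) • proj (bas : ZMod d → ℂ))
    have h1 := (rank_smul_le (d / (d + 1 + 2 * Real.sqrt (d + 1)) : ℝ)
      (proj (seq (wel E ψ)))).trans (rank_proj _)
    have h2 := (rank_smul_le (Real.sqrt (d + 1) / (d + 1 + 2 * Real.sqrt (d + 1)))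
      (proj (bas : ZMod d → ℂ))).trans (rank_proj _)
    have h3 := (rank_smul_le ((Real.sqrt (d + 1) + 1) / (d + 1 + 2 * Real.sqrt (d + 1)))
      (proj (con : ZMod d → ℂ))).trans (rank_proj _)
    omega
  · intro a b hab
    rw [rhoW, tr_add, tr_add, tr_smul, tr_smul, tr_smul, tr_proj, tr_proj, tr_proj, ov_bas, ov_con]
    by_cases ha : a = 0
    · have hb : b ≠ 0 := fun hb => hab (by rw [ha, hb])
      rw [ha, ov_wel_zero, if_neg hb, if_pos rfl, mul_zero, mul_zero, zero_add, mul_one,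
        add_zero, Complex.norm_real, Real.norm_eq_abs, abs_of_pos (by positivity), ht]
    · by_cases hb : b = 0
      · rw [hb, ov_wel_shift E hψ ha, if_neg ha, if_pos rfl, mul_zero, add_zero, mul_one]
        have h1 : ((d / (d + 1 + 2 * Real.sqrt (d + 1)) : ℝ) : ℂ) * -(1 / (d : ℂ)) +
            (((Real.sqrt (d + 1) + 1) / (d + 1 + 2 * Real.sqrt (d + 1)) : ℝ) : ℂ) =
            ((Real.sqrt (d + 1) / (d + 1 + 2 * Real.sqrt (d + 1)) : ℝ) : ℂ) := by
          have h2 : (1 / (d : ℂ)) = ((1 / d : ℝ) : ℂ) := by push_cast; rfl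
          rw [h2, ← Complex.ofReal_neg, ← Complex.ofReal_mul, ← Complex.ofReal_add]
          congr 1
          field_simp
          ring
        rw [h1, Complex.norm_real, Real.norm_eq_abs, abs_of_pos (by positivity), ht]
      · rw [if_neg ha, if_neg hb, mul_zero, mul_zero, add_zero, add_zero, norm_mul,
          ov_wel_ne E hψ ha hb, Complex.norm_real, Real.norm_eq_abs, abs_of_pos (by positivity), ← ht]
        field_simp

end Welch

end Pool.Agent.N392.WH
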