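import Mathlib
import Pool.Agent.N655.WH.Core
import Pool.Agent.N392.WH.Sim

set_option autoImplicit false

/-! # Weyl–Heisenberg covariant symmetric measurements: the optimal contrast -/

namespace Pool.Agent.N392.WH

open Finset Complex Pool.Agent.R503.SIC Matrix
open scoped ComplexConjugate ComplexOrder

variable {d : ℕ} [NeZero d]

theorem parseval_tr (ρ : Matrix (ZMod d) (ZMod d) ℂ) :
    ∑ a : ZMod d, ∑ b : ZMod d, ‖tr ρ a b‖ ^ 2 = d * ∑ j, ∑ k, ‖ρ j k‖ ^ 2 := by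
  have h1 : ∀ a : ZMod d, ∑ b : ZMod d, ‖tr ρ a b‖ ^ 2 = d * ∑ j, ‖ρ j (j + a)‖ ^ 2 := fun a =>
    Pool.Agent.N655.WH.parseval fun j => ρ j (j + a)
  rw [Finset.sum_congr rfl fun a _ => h1 a, ← Finset.mul_sum, Finset.sum_comm]
  congr 1
  refine Finset.sum_congr rfl fun j _ => ?_
  exact Fintype.sum_equiv (Equiv.addLeft j) _ _ fun a => rfl

theorem sum_const_tr {ρ : Matrix (ZMod d) (ZMod d) ℂ} (htr : ρ.trace = 1) {t : ℝ}
    (ht : ∀ a b : ZMod d, (a, b) ≠ (0, 0) → ‖tr ρ a b‖ = t) :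
    ∑ a : ZMod d, ∑ b : ZMod d, ‖tr ρ a b‖ ^ 2 = 1 + ((d : ℝ) ^ 2 - 1) * t ^ 2 := by
  rw [← Finset.sum_product' Finset.univ Finset.univ fun a b => ‖tr ρ a b‖ ^ 2,
    Finset.univ_product_univ, ← Finset.add_sum_erase _ _ (Finset.mem_univ (0, 0)),
    ← trace_eq, htr, norm_one, one_pow]
  congr 1
  have h1 : ∀ x ∈ (Finset.univ : Finset (ZMod d × ZMod d)).erase (0, 0),
      ‖tr ρ x.1 x.2‖ ^ 2 = t ^ 2 := fun x hx => by
    rw [ht x.1 x.2 (Finset.ne_of_mem_erase hx)]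
  rw [Finset.sum_congr rfl h1, Finset.sum_const, Finset.card_erase_of_mem (Finset.mem_univ _),
    Finset.card_univ, Fintype.card_prod, ZMod.card, nsmul_eq_mul, Nat.cast_sub]
  · push_cast; ring
  · exact Nat.mul_pos (Nat.pos_of_ne_zero (NeZero.ne d)) (Nat.pos_of_ne_zero (NeZero.ne d))

/-- Gram vectors -/
theorem exists_gram {ρ : Matrix (ZMod d) (ZMod d) ℂ} (hρ : ρ.PosSemidef) :
    ∃ (m : ℕ) (b : ZMod d → EuclideanSpace ℂ (Fin m)), ∀ j k, ρ j k = inner ℂ (b k) (b j) := by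
  obtain ⟨m, v, hv⟩ := Matrix.posSemidef_iff_eq_sum_vecMulVec.1 hρ
  refine ⟨m, fun j => WithLp.toLp 2 fun i => v i j, fun j k => ?_⟩
  rw [PiLp.inner_apply, hv, Matrix.sum_apply]
  refine Finset.sum_congr rfl fun i _ => ?_
  simp [vecMulVec_apply, RCLike.inner_apply]

theorem opt (hd : 2 ≤ d) {ρ : Matrix (ZMod d) (ZMod d) ℂ} (hρ : ρ.PosSemidef)
    (htr : ρ.trace = 1) {t : ℝ} (ht : ∀ a b : ZMod d, (a, b) ≠ (0, 0) → ‖tr ρ a b‖ = t) :
    t ≤ 1 / Real.sqrt (d + 1) ∧ (t = 1 / Real.sqrt (d + 1) → ∃ x, Fid x ∧ ρ = proj x) := by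
  obtain ⟨m, b, hb⟩ := exists_gram hρ
  have hd2 : (2 : ℝ) ≤ d := by exact_mod_cast hd
  -- the trace
  have h1 : ∑ j, ‖b j‖ ^ 2 = 1 := by
    have h2 : ((∑ j, ‖b j‖ ^ 2 : ℝ) : ℂ) = 1 := by
      rw [← htr, Matrix.trace, Complex.ofReal_sum]
      refine Finset.sum_congr rfl fun j _ => ?_
      rw [Matrix.diag_apply, hb, inner_self_eq_norm_sq_to_K]
      push_cast
      rfl
    exact_mod_cast h2
  have h3 : ∀ j k, ‖ρ j k‖ ≤ ‖b k‖ * ‖b j‖ := fun j k => by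
    rw [hb]; exact norm_inner_le_norm _ _
  have h4 : ∑ j, ∑ k, (‖b k‖ * ‖b j‖) ^ 2 = 1 := by
    have : ∀ j, ∑ k, (‖b k‖ * ‖b j‖) ^ 2 = ‖b j‖ ^ 2 := fun j => by
      simp_rw [mul_pow]
      rw [← Finset.sum_mul, h1, one_mul]
    rw [Finset.sum_congr rfl fun j _ => this j, h1]
  have h5 : ∑ j, ∑ k, ‖ρ j k‖ ^ 2 ≤ 1 := by
    rw [← h4]
    exact Finset.sum_le_sum fun j _ => Finset.sum_le_sum fun k _ =>
      pow_le_pow_left₀ (norm_nonneg _) (h3 j k) 2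
  have h6 : 1 + ((d : ℝ) ^ 2 - 1) * t ^ 2 = d * ∑ j, ∑ k, ‖ρ j k‖ ^ 2 := by
    rw [← sum_const_tr htr ht, parseval_tr]
  have hs : 0 < Real.sqrt (d + 1) := Real.sqrt_pos.2 (by positivity)
  have hss : Real.sqrt (d + 1) ^ 2 = d + 1 := Real.sq_sqrt (by positivity)
  have h7 : t ^ 2 ≤ (1 / Real.sqrt (d + 1)) ^ 2 := by
    rw [div_pow, one_pow, hss, le_div_iff₀ (by positivity)]
    have h8 : ((d : ℝ) - 1) * (t ^ 2 * (d + 1)) ≤ ((d : ℝ) - 1) * 1 := by nlinarith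
    exact le_of_mul_le_mul_left h8 (by linarith)
  refine ⟨(abs_le_of_sq_le_sq' h7 (by positivity)).2, fun hteq => ?_⟩
  have h9 : ∑ j, ∑ k, ‖ρ j k‖ ^ 2 = 1 := by
    have h10 : t ^ 2 = 1 / (d + 1) := by rw [hteq, div_pow, one_pow, hss]
    rw [h10] at h6
    have h11 : (d : ℝ) * ∑ j, ∑ k, ‖ρ j k‖ ^ 2 = d * 1 := by
      rw [← h6]
      field_simp
      ring
    exact mul_left_cancel₀ (by positivity) h11
  have h12 : ∀ j k, ‖ρ j k‖ = ‖b k‖ * ‖b j‖ := by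
    have h13 : ∑ j, ∑ k, ‖ρ j k‖ ^ 2 = ∑ j, ∑ k, (‖b k‖ * ‖b j‖) ^ 2 := by rw [h9, h4]
    have h14 := (Finset.sum_eq_sum_iff_of_le fun j _ => Finset.sum_le_sum fun k _ =>
      pow_le_pow_left₀ (norm_nonneg _) (h3 j k) 2).1 h13
    intro j k
    have h15 := (Finset.sum_eq_sum_iff_of_le fun k _ =>
      pow_le_pow_left₀ (norm_nonneg _) (h3 j k) 2).1 (h14 j (Finset.mem_univ _)) k
        (Finset.mem_univ _)
    exact (pow_left_inj₀ (norm_nonneg _) (by positivity) two_ne_zero).1 h15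
  obtain ⟨k0, hk0⟩ : ∃ k, b k ≠ 0 := by
    by_contra hcon
    push Not at hcon
    rw [Finset.sum_eq_zero fun j _ => by rw [hcon j, norm_zero]; norm_num] at h1
    exact zero_ne_one h1
  have h16 : ∀ j, ∃ r : ℂ, b j = r • b k0 := by
    intro j
    have h17 : ‖inner ℂ (b k0) (b j)‖ = ‖b k0‖ * ‖b j‖ := by rw [← hb, h12]
    have h18 := ((norm_inner_eq_norm_tfae ℂ (b k0) (b j)).out 0 2).1 h17
    exact h18.resolve_left hk0
  choose r hr using h16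
  have h19 : ρ = proj fun j => r j * ‖b k0‖ := by
    ext j k
    rw [hb, hr j, hr k, inner_smul_left, inner_smul_right, inner_self_eq_norm_sq_to_K, proj,
      vecMulVec_apply, Pi.star_apply, RCLike.star_def, map_mul, Complex.conj_ofReal]
    simp only [Complex.coe_algebraMap]
    ring
  refine ⟨fun j => r j * ‖b k0‖, ⟨?_, fun u v huv => ?_⟩, h19⟩
  · have h20 : tr ρ 0 0 = 1 := by rw [← trace_eq, htr]
    rw [h19, tr_proj, ov] at h20
    have h21 : ((∑ j, ‖r j * ‖b k0‖‖ ^ 2 : ℝ) : ℂ) = 1 := by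
      rw [← h20, Complex.ofReal_sum]
      refine Finset.sum_congr rfl fun j _ => ?_
      rw [add_zero, zero_mul, e_zero, one_mul, conj_mul_self']
    exact_mod_cast h21
  · rw [← tr_proj, ← h19, ht u v huv, hteq, div_pow, one_pow, hss]

theorem proj_of_fid {x : ZMod d → ℂ} (hx : Fid x) :
    (proj x).PosSemidef ∧ (proj x).trace = 1 ∧ ∀ a b : ZMod d, (a, b) ≠ (0, 0) →
      ‖tr (proj x) a b‖ = 1 / Real.sqrt (d + 1) := by
  refine ⟨posSemidef_proj x, ?_, fun a b hab => ?_⟩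
  · rw [trace_eq, tr_proj, ov_zero hx.1]
  · rw [tr_proj, ← Real.sqrt_sq (norm_nonneg (ov x a b)), hx.2 a b hab, one_div, one_div,
      Real.sqrt_inv]

end Pool.Agent.N392.WH
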