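import Mathlib
import Pool.Agent.N392.WH.Sim

set_option autoImplicit false

/-! # Weyl–Heisenberg covariant approximate fiducials in dimension `q - 1` -/

namespace Pool.Agent.N392.WH

open Finset Complex Pool.Agent.R503.SIC Matrix
open scoped ComplexConjugate ComplexOrder

variable {d : ℕ} [NeZero d]

/-- `⟨x, X ^ a Z ^ b y⟩` -/
noncomputable def ov2 (x y : ZMod d → ℂ) (a b : ZMod d) : ℂ :=
  ∑ j, conj (x (j + a)) * (e (b * j) * y j)

theorem ov2_self (x : ZMod d → ℂ) (a b : ZMod d) : ov2 x x a b = ov x a b := rfl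

theorem ov2_bas_right (x : ZMod d → ℂ) (a b : ZMod d) : ov2 x bas a b = conj (x a) := by
  unfold ov2 bas
  rw [Finset.sum_eq_single 0]
  · simp [e_zero]
  · intro j _ hj
    simp [hj]
  · intro h; exact absurd (Finset.mem_univ _) h

theorem ov2_bas_left (x : ZMod d → ℂ) (a b : ZMod d) : ov2 bas x a b = e (b * -a) * x (-a) := by
  unfold ov2 bas
  rw [Finset.sum_eq_single (-a)]
  · simp
  · intro j _ hj
    have : j + a ≠ 0 := fun h => hj (eq_neg_of_add_eq_zero_left h)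
    simp [this]
  · intro h; exact absurd (Finset.mem_univ _) h

theorem ov2_con_left (f : ZMod d → ℂ) (a b : ZMod d) :
    ov2 con (seq f) a b = 1 / (d : ℂ) * ∑ j, e (b * j) * f j := by
  unfold ov2 seq con
  rw [Finset.mul_sum]
  refine Finset.sum_congr rfl fun j _ => ?_
  rw [Complex.conj_ofReal, ← sqrt_mul]
  ring

theorem ov2_con_right (f : ZMod d → ℂ) (a b : ZMod d) :
    ov2 (seq f) con a b = e (b * -a) * (1 / (d : ℂ) * conj (∑ j, e (-b * j) * f j)) := by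
  unfold ov2 seq con
  rw [map_sum, Finset.mul_sum, Finset.mul_sum]
  refine Fintype.sum_equiv (Equiv.addRight a) _ _ fun j => ?_
  simp only [Equiv.coe_addRight, map_mul, Complex.conj_ofReal, conj_e]
  have h1 : e (b * -a) * e (-(-b * (j + a))) = e (b * j) := by
    rw [← e_add]; congr 1; ring
  rw [← sqrt_mul, ← h1]
  ring

theorem norm_seq {f : ZMod d → ℂ} (hf : ∀ j, ‖f j‖ = 1) (j : ZMod d) :
    ‖seq f j‖ = 1 / Real.sqrt d := by
  unfold seq
  rw [norm_mul, hf, mul_one, Complex.norm_real, Real.norm_eq_abs, abs_of_nonneg (by positivity)]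

theorem norm_con (j : ZMod d) : ‖(con j : ℂ)‖ = 1 / Real.sqrt d := by
  unfold con
  rw [Complex.norm_real, Real.norm_eq_abs, abs_of_nonneg (by positivity)]

section Welch

variable {F : Type} [Field F] [Fintype F] (E : Multiplicative (ZMod d) ≃* Fˣ)

theorem norm_wel (ψ : AddChar F ℂ) (j : ZMod d) : ‖wel E ψ j‖ = 1 := by
  unfold wel
  exact AddChar.norm_apply _ _

theorem wel_sum_zero {ψ : AddChar F ℂ} (hψ : ψ.IsPrimitive) :
    ∑ j, e (0 * j) * wel E ψ j = -1 := by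
  classical
  have h1 : ∀ j : ZMod d, e (0 * j) * wel E ψ j =
      (fun x : F => if x = 0 then (0 : ℂ) else ψ x) (E (Multiplicative.ofAdd j)) := by
    intro j
    rw [zero_mul, e_zero, one_mul]
    simp only
    rw [if_neg (Units.ne_zero _)]
    rfl
  have h5 := sum_units E (fun x : F => if x = 0 then (0 : ℂ) else ψ x) (by simp)
  rw [Finset.sum_congr rfl fun j _ => h1 j, h5]
  have h2 : ∀ x : F, (if x = 0 then (0 : ℂ) else ψ x) =
      ψ (x * 1) - if x = 0 then 1 else 0 := by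
    intro x
    by_cases hx : x = 0
    · simp [hx]
    · rw [if_neg hx, if_neg hx, sub_zero, mul_one]
  rw [Finset.sum_congr rfl fun x _ => h2 x, Finset.sum_sub_distrib,
    AddChar.sum_mulShift _ hψ, if_neg one_ne_zero]
  simp

theorem wel_sum_ne {ψ : AddChar F ℂ} (hψ : ψ.IsPrimitive) {b : ZMod d} (hb : b ≠ 0) :
    ‖∑ j, e (b * j) * wel E ψ j‖ = Real.sqrt (d + 1) := by
  have h1 : ∀ j : ZMod d, e (b * j) * wel E ψ j =
      (fun x : F => chi E b x * ψ x) (E (Multiplicative.ofAdd j)) := by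
    intro j
    rw [← chi_apply E]
    rfl
  have h5 := sum_units E (fun x : F => chi E b x * ψ x) (by simp [MulChar.map_zero])
  rw [Finset.sum_congr rfl fun j _ => h1 j, h5]
  have h3 : ‖∑ x, chi E b x * ψ x‖ = Real.sqrt (Fintype.card F) :=
    norm_gaussSum (chi_ne_one E hb) hψ
  rw [h3, card_eq E]

theorem wel_sum_le {ψ : AddChar F ℂ} (hψ : ψ.IsPrimitive) (b : ZMod d) :
    ‖∑ j, e (b * j) * wel E ψ j‖ ≤ Real.sqrt (d + 1) := by
  by_cases hb : b = 0
  · rw [hb, wel_sum_zero E hψ, norm_neg, norm_one]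
    rw [Real.one_le_sqrt]
    have : (0 : ℝ) < d := cast_pos
    linarith
  · exact (wel_sum_ne E hψ hb).le

/-- the vector -/
noncomputable def vecW (ψ : AddChar F ℂ) (c : ℝ) : ZMod d → ℂ :=
  fun j => seq (wel E ψ) j + (c : ℂ) * bas j + (c : ℂ) * con j

theorem ov_vecW (ψ : AddChar F ℂ) (c : ℝ) (a b : ZMod d) :
    ov (vecW E ψ c) a b = ov (seq (wel E ψ)) a b + (c : ℂ) ^ 2 * ov bas a b +
      (c : ℂ) ^ 2 * ov con a b + ((c : ℂ) * ov2 (seq (wel E ψ)) bas a b +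
      (c : ℂ) * ov2 bas (seq (wel E ψ)) a b + (c : ℂ) * ov2 (seq (wel E ψ)) con a b +
      (c : ℂ) * ov2 con (seq (wel E ψ)) a b + (c : ℂ) ^ 2 * ov2 bas con a b +
      (c : ℂ) ^ 2 * ov2 con bas a b) := by
  unfold ov ov2 vecW
  simp only [Finset.mul_sum, ← Finset.sum_add_distrib]
  refine Finset.sum_congr rfl fun j _ => ?_
  simp only [map_add, map_mul, Complex.conj_ofReal]
  ring

/-- the six mixed terms -/
noncomputable def cross (ψ : AddChar F ℂ) (c : ℝ) (a b : ZMod d) : ℂ :=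
  (c : ℂ) * ov2 (seq (wel E ψ)) bas a b +
      (c : ℂ) * ov2 bas (seq (wel E ψ)) a b + (c : ℂ) * ov2 (seq (wel E ψ)) con a b +
      (c : ℂ) * ov2 con (seq (wel E ψ)) a b + (c : ℂ) ^ 2 * ov2 bas con a b +
      (c : ℂ) ^ 2 * ov2 con bas a b

theorem norm_cross_le {ψ : AddChar F ℂ} (hψ : ψ.IsPrimitive) {c : ℝ} (hc : 0 ≤ c) (a b : ZMod d)
    {K : ℝ} (hK : ∀ b' : ZMod d, b' = b ∨ b' = -b → ‖∑ j, e (b' * j) * wel E ψ j‖ ≤ K) :
    ‖cross E ψ c a b‖ ≤ 2 * c * (1 / Real.sqrt d) + 2 * c * (K / d) +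
      2 * c ^ 2 * (1 / Real.sqrt d) := by
  have h1 : ‖ov2 (seq (wel E ψ)) bas a b‖ = 1 / Real.sqrt d := by
    rw [ov2_bas_right, norm_conj', norm_seq (norm_wel E ψ)]
  have h2 : ‖ov2 bas (seq (wel E ψ)) a b‖ = 1 / Real.sqrt d := by
    rw [ov2_bas_left, norm_mul, norm_e, one_mul, norm_seq (norm_wel E ψ)]
  have h3 : ‖ov2 (seq (wel E ψ)) con a b‖ ≤ K / d := by
    rw [ov2_con_right, norm_mul, norm_e, one_mul, norm_mul, norm_conj', norm_div, norm_one,
      Complex.norm_natCast, div_mul_eq_mul_div, one_mul]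
    exact div_le_div_of_nonneg_right (hK _ (Or.inr rfl)) (Nat.cast_nonneg d)
  have h4 : ‖ov2 con (seq (wel E ψ)) a b‖ ≤ K / d := by
    rw [ov2_con_left, norm_mul, norm_div, norm_one,
      Complex.norm_natCast, div_mul_eq_mul_div, one_mul]
    exact div_le_div_of_nonneg_right (hK _ (Or.inl rfl)) (Nat.cast_nonneg d)
  have h5 : ‖ov2 bas (con : ZMod d → ℂ) a b‖ = 1 / Real.sqrt d := by
    rw [ov2_bas_left, norm_mul, norm_e, one_mul, norm_con]
  have h6 : ‖ov2 (con : ZMod d → ℂ) bas a b‖ = 1 / Real.sqrt d := by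
    rw [ov2_bas_right, norm_conj', norm_con]
  have hcn : ‖(c : ℂ)‖ = c := by rw [Complex.norm_real, Real.norm_eq_abs, abs_of_nonneg hc]
  unfold cross
  refine (norm_add_le _ _).trans ?_
  refine (add_le_add_left (norm_add_le _ _) _).trans ?_
  refine (add_le_add_left (add_le_add_left (norm_add_le _ _) _) _).trans ?_
  refine (add_le_add_left (add_le_add_left (add_le_add_left (norm_add_le _ _) _) _) _).trans ?_
  refine (add_le_add_left (add_le_add_left (add_le_add_left (add_le_add_left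
    (norm_add_le _ _) _) _) _) _).trans ?_
  simp only [norm_mul, norm_pow, hcn, h1, h2, h5, h6]
  have h7 := mul_le_mul_of_nonneg_left h3 hc
  have h8 := mul_le_mul_of_nonneg_left h4 hc
  nlinarith [h7, h8]

theorem ov_vecW' (ψ : AddChar F ℂ) (c : ℝ) (a b : ZMod d) :
    ov (vecW E ψ c) a b = ov (seq (wel E ψ)) a b + (c : ℂ) ^ 2 * ov bas a b +
      (c : ℂ) ^ 2 * ov con a b + cross E ψ c a b := by
  rw [ov_vecW, cross]

theorem real_facts {c w r s D : ℝ} (hc : 0 < c) (hc2 : c ≤ 1 / 2) (hD : 16 ≤ D)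
    (h4 : c ^ 4 * (D + 1) = 1) (hw : w * D = 1) (hr : 0 ≤ r) (hr2 : r ^ 2 * D = 1)
    (hs : s * c ^ 2 = 1) :
    0 < w ∧ w ≤ 16 / 15 * c ^ 4 ∧ r ≤ 1033 / 1000 * c ^ 2 ∧ s / D = c ^ 2 + w * c ^ 2 := by
  have hD0 : 0 < D := by linarith
  have hw0 : 0 < w := by
    by_contra h
    push Not at h
    nlinarith
  have hc4 : 0 < c ^ 4 := by positivity
  have hw1 : w ≤ 16 / 15 * c ^ 4 := by
    have h5 : w * D ≤ 16 / 15 * c ^ 4 * D := by
      rw [hw]
      nlinarith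
    exact le_of_mul_le_mul_right h5 hD0
  refine ⟨hw0, hw1, ?_, ?_⟩
  · have h6 : r ^ 2 ≤ (1033 / 1000 * c ^ 2) ^ 2 := by
      have h7 : r ^ 2 = w := by
        have : r ^ 2 * D = w * D := by rw [hr2, hw]
        exact mul_right_cancel₀ hD0.ne' this
      rw [h7]
      nlinarith
    exact (abs_le_of_sq_le_sq' h6 (by positivity)).2
  · rw [div_eq_iff hD0.ne']
    have hc20 : c ^ 2 ≠ 0 := by positivity
    have h8 : s * c ^ 2 = (c ^ 2 + w * c ^ 2) * D * c ^ 2 := by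
      have h9 : (c ^ 2 + w * c ^ 2) * D * c ^ 2 = c ^ 4 * (D + w * D) := by ring
      rw [h9, hw, h4, hs]
    exact mul_right_cancel₀ hc20 h8

theorem cross_small {c w r s D X : ℝ} (hc : 0 < c) (hc2 : c ≤ 1 / 2) (hD : 16 ≤ D)
    (h4 : c ^ 4 * (D + 1) = 1) (hw : w * D = 1) (hr : 0 ≤ r) (hr2 : r ^ 2 * D = 1)
    (hs : s * c ^ 2 = 1) (hX : X ≤ 2 * c * r + 2 * c * (s / D) + 2 * c ^ 2 * r) :
    X ≤ 533 / 100 * c ^ 3 := by
  obtain ⟨hw0, hw1, hr1, hsD⟩ := real_facts hc hc2 hD h4 hw hr hr2 hs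
  rw [hsD] at hX
  have h1 : 2 * c * r ≤ 2 * c * (1033 / 1000 * c ^ 2) := by gcongr
  have h2 : 2 * c ^ 2 * r ≤ 2 * c ^ 2 * (1033 / 1000 * c ^ 2) := by gcongr
  have hc3 : 0 < c ^ 3 := by positivity
  have h3 : c ^ 4 ≤ 1 / 2 * c ^ 3 := by nlinarith
  have h5 : w ≤ 16 / 15 * (1 / 16) := by
    have : c ^ 4 ≤ (1 / 2) ^ 4 := by gcongr
    nlinarith
  have h6 : 2 * c * (w * c ^ 2) ≤ 2 * c * (16 / 15 * (1 / 16) * c ^ 2) := by gcongr
  nlinarith

theorem cross_small_zero {c w r s D X : ℝ} (hc : 0 < c) (hc2 : c ≤ 1 / 2) (hD : 16 ≤ D)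
    (h4 : c ^ 4 * (D + 1) = 1) (hw : w * D = 1) (hr : 0 ≤ r) (hr2 : r ^ 2 * D = 1)
    (hs : s * c ^ 2 = 1) (hX : X ≤ 2 * c * r + 2 * c * (1 / D) + 2 * c ^ 2 * r) :
    X ≤ 2 * c ^ 2 := by
  obtain ⟨hw0, hw1, hr1, hsD⟩ := real_facts hc hc2 hD h4 hw hr hr2 hs
  have hD0 : 0 < D := by linarith
  have hwD : 1 / D = w := by rw [div_eq_iff hD0.ne', hw]
  rw [hwD] at hX
  have h1 : 2 * c * r ≤ 2 * c * (1033 / 1000 * c ^ 2) := by gcongr
  have h2 : 2 * c ^ 2 * r ≤ 2 * c ^ 2 * (1033 / 1000 * c ^ 2) := by gcongr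
  have h3 : 2 * c * w ≤ 2 * c * (16 / 15 * c ^ 4) := by gcongr
  have h5 : c ^ 3 ≤ 1 / 2 * c ^ 2 := by nlinarith [sq_nonneg c]
  have h6 : c ^ 4 ≤ 1 / 4 * c ^ 2 := by nlinarith [sq_nonneg c, sq_nonneg (c ^ 2)]
  have h7 : c ^ 5 ≤ 1 / 8 * c ^ 2 := by
    have : c ^ 3 ≤ 1 / 8 := by
      calc c ^ 3 ≤ (1 / 2) ^ 3 := by gcongr
        _ = 1 / 8 := by norm_num
    nlinarith [sq_nonneg c]
  nlinarith

theorem final_real {c D T N : ℝ} (hc : 0 < c) (hc2 : c ≤ 1 / 2)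
    (h4 : c ^ 4 * (D + 1) = 1) (hT0 : 0 ≤ T) (hT1 : |T - c ^ 2| ≤ 6 * c ^ 3) (hN1 : 1 ≤ N)
    (hN2 : N ≤ 1 + 4 * c ^ 2) : |(D + 1) * (T / N) ^ 2 - 1| ≤ 30 * c := by
  have hc20 : 0 < c ^ 2 := by positivity
  set τ := T / c ^ 2 with hτ
  have hτT : T = τ * c ^ 2 := by rw [hτ, div_mul_cancel₀ _ hc20.ne']
  have hτ0 : 0 ≤ τ := by positivity
  have h1 : (D + 1) * (T / N) ^ 2 = τ ^ 2 / N ^ 2 := by
    rw [hτT, div_pow]
    have : (τ * c ^ 2) ^ 2 = τ ^ 2 * c ^ 4 := by ring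
    rw [this, ← mul_div_assoc]
    congr 1
    calc (D + 1) * (τ ^ 2 * c ^ 4) = τ ^ 2 * (c ^ 4 * (D + 1)) := by ring
      _ = τ ^ 2 := by rw [h4, mul_one]
  rw [h1]
  obtain ⟨h2, h3⟩ := abs_le.1 hT1
  have h5 : τ ≤ 1 + 6 * c := by
    have : τ * c ^ 2 ≤ (1 + 6 * c) * c ^ 2 := by rw [← hτT]; nlinarith
    exact le_of_mul_le_mul_right this hc20
  have h6 : 1 - 6 * c ≤ τ := by
    have : (1 - 6 * c) * c ^ 2 ≤ τ * c ^ 2 := by rw [← hτT]; nlinarith
    exact le_of_mul_le_mul_right this hc20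
  have hN0 : 0 < N ^ 2 := by positivity
  rw [abs_le]
  constructor
  · have h7 : 1 - 30 * c ≤ τ ^ 2 / N ^ 2 := by
      by_cases h30 : 1 ≤ 30 * c
      · have : 0 ≤ τ ^ 2 / N ^ 2 := by positivity
        linarith
      · push Not at h30
        rw [le_div_iff₀ hN0]
        have h8 : N ≤ 1 + 2 * c := by nlinarith
        have h9 : N ^ 2 ≤ (1 + 2 * c) ^ 2 := by gcongr
        have h10 : (1 - 30 * c) * N ^ 2 ≤ (1 - 30 * c) * (1 + 2 * c) ^ 2 :=
          mul_le_mul_of_nonneg_left h9 (by linarith)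
        have h11 : (1 - 6 * c) ^ 2 ≤ τ ^ 2 := pow_le_pow_left₀ (by linarith) h6 2
        nlinarith [pow_pos hc 3]
    linarith
  · have h7 : τ ^ 2 / N ^ 2 ≤ 1 + 30 * c := by
      rw [div_le_iff₀ hN0]
      have h8 : τ ^ 2 ≤ (1 + 6 * c) ^ 2 := pow_le_pow_left₀ hτ0 h5 2
      have h9 : 1 ≤ N ^ 2 := one_le_pow₀ hN1
      nlinarith
    linarith

theorem ov_scale (x : ZMod d → ℂ) (r : ℝ) (a b : ZMod d) :
    ov (fun j => (r : ℂ) * x j) a b = (r : ℂ) ^ 2 * ov x a b := by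
  unfold ov
  rw [Finset.mul_sum]
  refine Finset.sum_congr rfl fun j _ => ?_
  rw [map_mul, Complex.conj_ofReal]
  ring

theorem ov_zero_zero (x : ZMod d → ℂ) : ov x 0 0 = ((∑ j, ‖x j‖ ^ 2 : ℝ) : ℂ) := by
  unfold ov
  rw [Complex.ofReal_sum]
  refine Finset.sum_congr rfl fun j _ => ?_
  rw [add_zero, zero_mul, e_zero, one_mul, conj_mul_self']

include E in
theorem pure_case {ψ : AddChar F ℂ} (hψ : ψ.IsPrimitive) :
    ∃ x : ZMod d → ℂ, ∑ j, ‖x j‖ ^ 2 = 1 ∧ ∀ a b : ZMod d, (a, b) ≠ (0, 0) →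
      |((d : ℝ) + 1) * ‖ov x a b‖ ^ 2 - 1| ≤ 30 * ((d : ℝ) + 1) ^ (-(1 / 4) : ℝ) := by
  have hd : (0 : ℝ) < d := cast_pos
  have hd1 : (1 : ℝ) ≤ d := by exact_mod_cast Nat.pos_of_ne_zero (NeZero.ne d)
  set c : ℝ := ((d : ℝ) + 1) ^ (-(1 / 4) : ℝ) with hcdef
  have hc : 0 < c := Real.rpow_pos_of_pos (by positivity) _
  have h4 : c ^ 4 * ((d : ℝ) + 1) = 1 := by
    rw [hcdef, ← Real.rpow_natCast, ← Real.rpow_mul (by positivity)]
    norm_num
    rw [Real.rpow_neg_one, inv_mul_cancel₀ (by positivity)]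
  by_cases h16 : d < 16
  · have h16' : (d : ℝ) ≤ 15 := by exact_mod_cast Nat.lt_succ_iff.1 h16
    have hc2 : 1 / 2 ≤ c := by
      by_contra h
      push Not at h
      have : c ^ 4 < (1 / 2) ^ 4 := by gcongr
      nlinarith
    refine ⟨bas, ?_, fun a b hab => ?_⟩
    · have h := ov_zero_zero (bas : ZMod d → ℂ)
      rw [ov_bas, if_pos rfl] at h
      exact_mod_cast h.symm
    · rw [ov_bas]
      split_ifs
      · rw [norm_one, one_pow, mul_one, add_sub_cancel_right, abs_of_pos hd]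
        linarith
      · rw [norm_zero]
        norm_num
        linarith
  · push Not at h16
    have hD : (16 : ℝ) ≤ d := by exact_mod_cast h16
    have hc2 : c ≤ 1 / 2 := by
      by_contra h
      push Not at h
      have : (1 / 2) ^ 4 < c ^ 4 := by gcongr
      nlinarith
    set s := Real.sqrt (d + 1) with hsdef
    have hs0 : 0 < s := Real.sqrt_pos.2 (by positivity)
    have hs2 : s ^ 2 = d + 1 := Real.sq_sqrt (by positivity)
    have hs : s * c ^ 2 = 1 := by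
      have h5 : (s * c ^ 2) ^ 2 = 1 ^ 2 := by
        calc (s * c ^ 2) ^ 2 = c ^ 4 * s ^ 2 := by ring
          _ = 1 ^ 2 := by rw [hs2, h4, one_pow]
      exact (pow_left_inj₀ (by positivity) zero_le_one two_ne_zero).1 h5
    set r := 1 / Real.sqrt d with hrdef
    have hr : 0 ≤ r := by positivity
    have hr2 : r ^ 2 * d = 1 := by
      rw [hrdef, div_pow, one_pow, Real.sq_sqrt hd.le, one_div, inv_mul_cancel₀ hd.ne']
    have hw : (1 / (d : ℝ)) * d = 1 := by rw [one_div, inv_mul_cancel₀ hd.ne']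
    obtain ⟨hw0, hw1, hr1, hsD⟩ := real_facts hc hc2 hD h4 hw hr hr2 hs
    have hcr : ∀ a b : ZMod d, ‖cross E ψ c a b‖ ≤ 533 / 100 * c ^ 3 := fun a b =>
      cross_small hc hc2 hD h4 hw hr hr2 hs
        (norm_cross_le E hψ hc.le a b fun b' _ => wel_sum_le E hψ b')
    have hcr0 : ‖cross E ψ c 0 0‖ ≤ 2 * c ^ 2 :=
      cross_small_zero hc hc2 hD h4 hw hr hr2 hs
        (norm_cross_le E hψ hc.le 0 0 fun b' hb' => by
          have : b' = 0 := by rcases hb' with h | h <;> simp [h]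
          rw [this, wel_sum_zero E hψ, norm_neg, norm_one])
    set N := ∑ j, ‖vecW E ψ c j‖ ^ 2 with hN
    have hN3 : ((N : ℝ) : ℂ) = ((1 + 2 * c ^ 2 : ℝ) : ℂ) + cross E ψ c 0 0 := by
      rw [hN, ← ov_zero_zero, ov_vecW', ov_wel_zero, ov_bas, ov_con, if_pos rfl]
      push_cast
      ring
    have hN4 : |N - (1 + 2 * c ^ 2)| ≤ 2 * c ^ 2 := by
      have h5 : ((N - (1 + 2 * c ^ 2) : ℝ) : ℂ) = cross E ψ c 0 0 := by
        rw [Complex.ofReal_sub, hN3]; ring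
      rw [← Real.norm_eq_abs, ← Complex.norm_real, h5]
      exact hcr0
    obtain ⟨hN5, hN6⟩ := abs_le.1 hN4
    have hN1 : 1 ≤ N := by linarith
    have hN2 : N ≤ 1 + 4 * c ^ 2 := by linarith
    have hN0 : 0 < N := by linarith
    have hsN : (1 / Real.sqrt N) ^ 2 = 1 / N := by
      rw [div_pow, one_pow, Real.sq_sqrt hN0.le]
    refine ⟨fun j => ((1 / Real.sqrt N : ℝ) : ℂ) * vecW E ψ c j, ?_, fun a b hab => ?_⟩
    · have h5 : ∀ j, ‖((1 / Real.sqrt N : ℝ) : ℂ) * vecW E ψ c j‖ ^ 2 =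
          1 / N * ‖vecW E ψ c j‖ ^ 2 := by
        intro j
        rw [norm_mul, mul_pow, Complex.norm_real, Real.norm_eq_abs, sq_abs, hsN]
      rw [Finset.sum_congr rfl fun j _ => h5 j, ← Finset.mul_sum, ← hN, one_div,
        inv_mul_cancel₀ hN0.ne']
    · rw [ov_scale, norm_mul, norm_pow, Complex.norm_real, Real.norm_eq_abs, sq_abs, hsN,
        one_div_mul_eq_div]
      refine final_real hc hc2 h4 (norm_nonneg _) ?_ hN1 hN2
      have hcn : ∀ z : ℂ, ‖z - ((c ^ 2 : ℝ) : ℂ)‖ ≤ 6 * c ^ 3 → |‖z‖ - c ^ 2| ≤ 6 * c ^ 3 := by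
        intro z hz
        have h5 := abs_norm_sub_norm_le z ((c ^ 2 : ℝ) : ℂ)
        have h6 : ‖((c ^ 2 : ℝ) : ℂ)‖ = c ^ 2 := by
          rw [Complex.norm_real, Real.norm_eq_abs, abs_of_pos (by positivity)]
        rw [h6] at h5
        exact h5.trans hz
      have hc3 : 0 < c ^ 3 := by positivity
      have hc4 : c ^ 4 ≤ 1 / 2 * c ^ 3 := by nlinarith
      have hcab := hcr a b
      rw [ov_vecW']
      by_cases ha : a = 0
      · have hb : b ≠ 0 := fun hb => hab (by rw [ha, hb])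
        apply hcn
        rw [ha, ov_wel_zero, if_neg hb, ov_bas, if_pos rfl, ov_con, if_neg hb]
        have h5 : (0 : ℂ) + (c : ℂ) ^ 2 * 1 + (c : ℂ) ^ 2 * 0 + cross E ψ c 0 b -
            ((c ^ 2 : ℝ) : ℂ) = cross E ψ c 0 b := by push_cast; ring
        rw [h5, ← ha]
        linarith
      · by_cases hb : b = 0
        · apply hcn
          rw [hb, ov_wel_shift E hψ ha, ov_bas, if_neg ha, ov_con, if_pos rfl]
          have h5 : -(1 / (d : ℂ)) + (c : ℂ) ^ 2 * 0 + (c : ℂ) ^ 2 * 1 + cross E ψ c a 0 -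
            ((c ^ 2 : ℝ) : ℂ) = cross E ψ c a 0 - ((1 / d : ℝ) : ℂ) := by push_cast; ring
          rw [h5]
          refine (norm_sub_le _ _).trans ?_
          rw [Complex.norm_real, Real.norm_eq_abs, abs_of_pos hw0, ← hb]
          nlinarith
        · rw [ov_bas, if_neg ha, ov_con, if_neg hb, mul_zero, add_zero, add_zero]
          have h5 := ov_wel_ne E hψ ha hb
          rw [← hsdef, hsD] at h5
          have h6 := abs_norm_sub_norm_le (ov (seq (wel E ψ)) a b + cross E ψ c a b)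
            (ov (seq (wel E ψ)) a b)
          rw [add_sub_cancel_left, h5] at h6
          have h7 : 1 / (d : ℝ) * c ^ 2 ≤ 1 / 3 * c ^ 3 := by
            have h8 : 1 / (d : ℝ) * c ^ 2 ≤ 16 / 15 * c ^ 4 * c ^ 2 := by gcongr
            have h9 : c ^ 3 ≤ 1 / 8 := by
              calc c ^ 3 ≤ (1 / 2) ^ 3 := by gcongr
                _ = 1 / 8 := by norm_num
            nlinarith
          obtain ⟨h10, h11⟩ := abs_le.1 (h6.trans hcab)
          rw [abs_le]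
          constructor
          · have : 0 ≤ 1 / (d : ℝ) * c ^ 2 := by positivity
            linarith
          · linarith

end Welch

end Pool.Agent.N392.WH
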