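import Mathlib
import Pool.Agent.N392.WH.Gap

set_option autoImplicit false

/-! # Angles between the entries of a Weyl–Heisenberg SIC fiducial -/

namespace Pool.Agent.N392.WH

open Finset Complex Pool.Agent.R503.SIC
open scoped ComplexConjugate

variable {d : ℕ} [NeZero d]

theorem support_card {ψ : ZMod d → ℂ} (h : Fid ψ) :
    d + 1 ≤ 2 * (univ.filter fun j => ψ j ≠ 0).card := by
  classical
  have h1 := coset_bound h ⊥
  rw [AddSubgroup.card_bot] at h1
  refine h1.trans (Nat.mul_le_mul_left 2 ?_)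
  have h2 : {c : ZMod d ⧸ (⊥ : AddSubgroup (ZMod d)) |
      ∃ j : ZMod d, ψ j ≠ 0 ∧ (j : ZMod d ⧸ (⊥ : AddSubgroup (ZMod d))) = c} =
      (fun j : ZMod d => (j : ZMod d ⧸ (⊥ : AddSubgroup (ZMod d)))) ''
        ((univ.filter fun j => ψ j ≠ 0 : Finset (ZMod d)) : Set (ZMod d)) := by
    ext c
    simp
  rw [h2]
  refine (Set.ncard_image_le (Finset.finite_toSet _)).trans ?_
  rw [Set.ncard_coe_finset]

/-- runs of zeros along arithmetic progressions whose step is a unit -/
theorem runs {ψ : ZMod d → ℂ} (h : Fid ψ) (hd : 4 ≤ d) {c s : ZMod d} (hs : IsUnit s) {g : ℕ}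
    (hg : ∀ i : ℕ, i < g → ψ (c + s * (i : ZMod d)) = 0) : 3 * g + 2 ≤ d := by
  classical
  obtain ⟨u, rfl⟩ := hs
  let E : ZMod d ≃ ZMod d := (Units.mulLeft u).trans (Equiv.addLeft c)
  have hE : ∀ x, E x = c + u * x := fun x => rfl
  refine gap_aux hd (φ := fun x => ψ (c + u * x)) ?_ ?_ hg
  · intro a k ha hk
    have h1 := four_term h (a := u * a) (k := u * k) (by simpa using ha) (by simpa using hk)
    rw [← h1]
    refine Fintype.sum_equiv E _ _ fun j => ?_
    unfold FF
    rw [hE]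
    have e1 : c + (u : ZMod d) * (j + a) = c + u * j + u * a := by ring
    have e2 : c + (u : ZMod d) * (j + k + a) = c + u * j + u * k + u * a := by ring
    have e3 : c + (u : ZMod d) * (j + k) = c + u * j + u * k := by ring
    simp only [e1, e2, e3]
  · refine (support_card h).trans (le_of_eq ?_)
    congr 1
    refine Finset.card_bij (fun x _ => E.symm x) ?_ ?_ ?_
    · intro x hx
      rw [mem_filter] at hx ⊢
      refine ⟨mem_univ _, ?_⟩
      rw [← hE, Equiv.apply_symm_apply]
      exact hx.2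
    · intro x _ y _ hxy
      exact E.symm.injective hxy
    · intro x hx
      rw [mem_filter] at hx
      exact ⟨E x, mem_filter.2 ⟨mem_univ _, hx.2⟩, E.symm_apply_apply x⟩

/-- if `z` and `w` lie in the open cone `|Im| < Re`, then `z * conj w` has positive real part -/
theorem re_pos_of_cone {z w : ℂ} (hz : |z.im| < z.re) (hw : |w.im| < w.re) :
    0 < (z * conj w).re := by
  rw [Complex.mul_re, Complex.conj_re, Complex.conj_im]
  have h1 : 0 < z.re := (abs_nonneg _).trans_lt hz
  have h3 : |z.im * w.im| < z.re * w.re := by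
    rw [abs_mul]
    exact mul_lt_mul'' hz hw (abs_nonneg _) (abs_nonneg _)
  have h4 := neg_abs_le (z.im * w.im)
  linarith

/-- If any two nonzero entries make an angle smaller than `π / 4`, then `d` is `1` or `3`. -/
theorem sector {ψ : ZMod d → ℂ} (h : Fid ψ)
    (hψ : ∀ i j, ψ i ≠ 0 → ψ j ≠ 0 → |(conj (ψ i) * ψ j).im| < (conj (ψ i) * ψ j).re) :
    d = 1 ∨ d = 3 := by
  classical
  have hd1 : (0 : ℝ) < (d : ℝ) + 1 := by positivity
  have hF : ∀ a j, FF ψ a j ≠ 0 → |(FF ψ a j).im| < (FF ψ a j).re := by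
    intro a j hj
    unfold FF at hj ⊢
    rw [mul_ne_zero_iff, map_ne_zero] at hj
    exact hψ _ _ hj.1 hj.2
  -- at most one nonzero product for every shift
  have huniq : ∀ a, a ≠ 0 → ∀ i j, FF ψ a i ≠ 0 → FF ψ a j ≠ 0 → i = j := by
    intro a ha i j hi hj
    by_contra hij
    have h1 := congrArg Complex.re (four_term h ha (k := j - i) (sub_ne_zero.2 (Ne.symm hij)))
    rw [Complex.re_sum, Complex.zero_re] at h1
    have hnn : ∀ x ∈ (univ : Finset (ZMod d)),
        0 ≤ (FF ψ a x * conj (FF ψ a (x + (j - i)))).re := by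
      intro x _
      by_cases h2 : FF ψ a x = 0
      · rw [h2]; simp
      by_cases h3 : FF ψ a (x + (j - i)) = 0
      · rw [h3]; simp
      exact (re_pos_of_cone (hF _ _ h2) (hF _ _ h3)).le
    have h4 := (Finset.sum_eq_zero_iff_of_nonneg hnn).1 h1 i (mem_univ _)
    have h5 : i + (j - i) = j := by ring
    rw [h5] at h4
    exact absurd h4 (re_pos_of_cone (hF _ _ hi) (hF _ _ hj)).ne'
  set S : Finset (ZMod d) := univ.filter fun j => ψ j ≠ 0 with hS
  have hprod : ∀ i ∈ S, ∀ j ∈ S, i ≠ j → ‖ψ i‖ ^ 2 * ‖ψ j‖ ^ 2 = 1 / ((d : ℝ) + 1) := by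
    intro i hi j hj hij
    rw [hS, mem_filter] at hi hj
    have ha : i - j ≠ 0 := sub_ne_zero.2 hij
    have hne : FF ψ (i - j) j ≠ 0 := by
      unfold FF
      rw [add_sub_cancel]
      exact mul_ne_zero ((map_ne_zero _).2 hi.2) hj.2
    rw [← row_sum h ha, Finset.sum_eq_single j]
    · unfold FF
      rw [add_sub_cancel, norm_mul, norm_conj']
      ring
    · intro x _ hx
      by_contra hne'
      refine hx (huniq _ ha _ _ (fun h0 => hne' ?_) hne)
      rw [h0]; simp
    · intro h0; exact absurd (mem_univ _) h0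
  -- counting
  have hcount : d - 1 = S.card * S.card - S.card := by
    rw [← Finset.offDiag_card]
    have h1 : ((univ : Finset (ZMod d)).erase 0).card = d - 1 := by
      rw [card_erase_of_mem (mem_univ _), card_univ, ZMod.card]
    rw [← h1]
    refine (Finset.card_bij (fun x _ => x.1 - x.2) ?_ ?_ ?_).symm
    · intro x hx
      rw [mem_offDiag] at hx
      rw [mem_erase]
      exact ⟨sub_ne_zero.2 hx.2.2, mem_univ _⟩
    · intro x hx y hy hxy
      rw [mem_offDiag] at hx hy
      obtain ⟨hx1, hx2, hx3⟩ := hx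
      obtain ⟨hy1, hy2, hy3⟩ := hy
      rw [hS, mem_filter] at hx1 hx2 hy1 hy2
      have e1 : FF ψ (x.1 - x.2) x.2 ≠ 0 := by
        unfold FF
        rw [add_sub_cancel]
        exact mul_ne_zero ((map_ne_zero _).2 hx1.2) hx2.2
      have e2 : FF ψ (x.1 - x.2) y.2 ≠ 0 := by
        unfold FF
        rw [hxy, add_sub_cancel]
        exact mul_ne_zero ((map_ne_zero _).2 hy1.2) hy2.2
      have e3 := huniq _ (sub_ne_zero.2 hx3) _ _ e1 e2
      refine Prod.ext ?_ e3
      have : x.1 - x.2 = y.1 - y.2 := hxy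
      rw [e3] at this
      exact sub_left_injective this
    · intro a ha
      rw [mem_erase] at ha
      have h2 := row_sum h ha.1
      have h3 : ∃ j, FF ψ a j ≠ 0 := by
        by_contra hcon
        push Not at hcon
        rw [Finset.sum_eq_zero fun j _ => by rw [hcon j]; simp] at h2
        exact absurd h2 (by positivity)
      obtain ⟨j, hj⟩ := h3
      unfold FF at hj
      rw [mul_ne_zero_iff, map_ne_zero] at hj
      refine ⟨(j + a, j), ?_, by simp⟩
      rw [mem_offDiag, hS, mem_filter, mem_filter]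
      exact ⟨⟨mem_univ _, hj.1⟩, ⟨mem_univ _, hj.2⟩, by simpa using ha.1⟩
  have hd0 : 1 ≤ d := Nat.one_le_iff_ne_zero.2 (NeZero.ne d)
  -- at most two elements
  have hS2 : S.card ≤ 2 := by
    by_contra hcon
    push Not at hcon
    have hall : ∀ i ∈ S, ‖ψ i‖ ^ 4 = 1 / ((d : ℝ) + 1) := by
      intro i hi
      have h1 : 1 < (S.erase i).card := by
        rw [card_erase_of_mem hi]; omega
      obtain ⟨j, hj, k, hk, hjk⟩ := Finset.one_lt_card.1 h1
      rw [mem_erase] at hj hk
      have e1 := hprod i hi j hj.2 (Ne.symm hj.1)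
      have e2 := hprod i hi k hk.2 (Ne.symm hk.1)
      have e3 := hprod j hj.2 k hk.2 hjk
      have e4 : ‖ψ i‖ ^ 4 * (‖ψ j‖ ^ 2 * ‖ψ k‖ ^ 2) =
          (‖ψ i‖ ^ 2 * ‖ψ j‖ ^ 2) * (‖ψ i‖ ^ 2 * ‖ψ k‖ ^ 2) := by ring
      rw [e1, e2, e3] at e4
      exact mul_right_cancel₀ (by positivity) e4
    have h1 := fourth h
    have h2 : ∑ j, ‖ψ j‖ ^ 4 = ∑ j ∈ S, ‖ψ j‖ ^ 4 := by
      refine (Finset.sum_subset (Finset.subset_univ _) fun c _ hc => ?_).symm
      rw [hS, mem_filter, not_and, not_not] at hc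
      rw [hc (mem_univ _)]; simp
    rw [h2, Finset.sum_congr rfl hall, Finset.sum_const, nsmul_eq_mul, ← mul_div_assoc, mul_one,
      div_left_inj' hd1.ne'] at h1
    have h3 : S.card = 2 := by exact_mod_cast h1
    omega
  have hS0 : S.card ≠ 0 := by
    intro h0
    have h1 := support_card h
    rw [← hS, h0] at h1
    omega
  have hS12 : S.card = 1 ∨ S.card = 2 := by omega
  rcases hS12 with h1 | h1
  · rw [h1] at hcount
    left; omega
  · rw [h1] at hcount
    right; omega

/-- Shifts of order two: some product `conj ψ (j + a) ψ j` is nonzero and not nearly real. -/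
theorem order_two {ψ : ZMod d → ℂ} (h : Fid ψ) {a : ZMod d} (ha : a ≠ 0) (h2 : a + a = 0) :
    ∃ j, ψ j ≠ 0 ∧ ψ (j + a) ≠ 0 ∧
      |(conj (ψ (j + a)) * ψ j).re| ≤ |(conj (ψ (j + a)) * ψ j).im| := by
  classical
  have hd1 : (0 : ℝ) < (d : ℝ) + 1 := by positivity
  by_contra hcon
  push Not at hcon
  have hF : ∀ j, FF ψ a j ≠ 0 → 0 < (FF ψ a j * FF ψ a j).re := by
    intro j hj
    have hj' := hj
    unfold FF at hj'
    rw [mul_ne_zero_iff, map_ne_zero] at hj'
    have h3 := hcon j hj'.2 hj'.1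
    have h4 := sq_lt_sq.2 h3
    rw [Complex.mul_re]
    unfold FF
    nlinarith
  have h1 := congrArg Complex.re (four_term h ha ha)
  rw [Complex.re_sum, Complex.zero_re] at h1
  have h5 : ∀ j, FF ψ a j * conj (FF ψ a (j + a)) = FF ψ a j * FF ψ a j := by
    intro j
    congr 1
    unfold FF
    have : j + a + a = j := by rw [add_assoc, h2, add_zero]
    rw [this, map_mul, Complex.conj_conj]
    ring
  rw [Finset.sum_congr rfl fun j _ => by rw [h5 j]] at h1
  have hnn : ∀ x ∈ (univ : Finset (ZMod d)), 0 ≤ (FF ψ a x * FF ψ a x).re := by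
    intro x _
    by_cases h3 : FF ψ a x = 0
    · rw [h3]; simp
    · exact (hF x h3).le
  have h6 := (Finset.sum_eq_zero_iff_of_nonneg hnn).1 h1
  have h7 := row_sum h ha
  rw [Finset.sum_eq_zero fun j _ => ?_] at h7
  · exact absurd h7 (by positivity)
  · by_contra hne
    have h8 : FF ψ a j ≠ 0 := fun h0 => hne (by rw [h0]; simp)
    exact absurd (h6 j (mem_univ _)) (hF j h8).ne'

/-- angles smaller than `π / 4` -/
theorem cone_of_angle {x y : ℂ} (hx : x ≠ 0) (hy : y ≠ 0)
    (h : InnerProductGeometry.angle x y < Real.pi / 4) :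
    |(conj x * y).im| < (conj x * y).re := by
  have h1 := Real.cos_lt_cos_of_nonneg_of_le_pi (InnerProductGeometry.angle_nonneg x y)
    (by linarith [Real.pi_pos]) h
  rw [Real.cos_pi_div_four, InnerProductGeometry.cos_angle] at h1
  have h2 : (inner ℝ x y : ℝ) = (conj x * y).re := by
    rw [Complex.inner, mul_comm]
  have hn : 0 < ‖x‖ * ‖y‖ := mul_pos (norm_pos_iff.2 hx) (norm_pos_iff.2 hy)
  rw [h2, lt_div_iff₀ hn] at h1
  have h3 : ‖conj x * y‖ = ‖x‖ * ‖y‖ := by rw [norm_mul, norm_conj']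
  rw [← h3] at h1 hn
  set z := conj x * y with hz
  have h4 : ‖z‖ ^ 2 = z.re ^ 2 + z.im ^ 2 := by
    rw [← Complex.normSq_eq_norm_sq, Complex.normSq_apply]; ring
  have h5 : 0 < Real.sqrt 2 / 2 * ‖z‖ := by positivity
  have h6 : 0 < z.re := h5.trans h1
  have h7 : (Real.sqrt 2 / 2 * ‖z‖) ^ 2 < z.re ^ 2 := by
    exact pow_lt_pow_left₀ h1 h5.le (by norm_num)
  rw [mul_pow, div_pow, Real.sq_sqrt (by norm_num), h4] at h7
  rw [← abs_of_pos h6, ← sq_lt_sq]
  nlinarith

theorem cone_of_angle' {x y : ℂ} (hx : x ≠ 0) (hy : y ≠ 0)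
    (h : InnerProductGeometry.angle x y < Real.pi / 4 ∨
      3 * Real.pi / 4 < InnerProductGeometry.angle x y) :
    |(conj x * y).im| < |(conj x * y).re| := by
  rcases h with h | h
  · exact (cone_of_angle hx hy h).trans_le (le_abs_self _)
  · have h1 : InnerProductGeometry.angle (-x) y < Real.pi / 4 := by
      rw [InnerProductGeometry.angle_neg_left]; linarith
    have h2 := cone_of_angle (neg_ne_zero.2 hx) hy h1
    have h3 : conj (-x) * y = -(conj x * y) := by rw [map_neg]; ring
    rw [h3, Complex.neg_im, Complex.neg_re, abs_neg] at h2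
    exact h2.trans_le (neg_le_abs _)

end Pool.Agent.N392.WH
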